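import Pool.Agent.R90.Ident

/-!
# Derivatives of `E`, `Θ E`, `b E`
-/

namespace Pool.Agent.R90

open Complex Metric Set MeasureTheory

noncomputable def qq (x u : ℂ) : ℂ := (x - 75 * u) ^ 3 / (81 * x ^ 2 * (5 + 3 * u) ^ 3)

noncomputable def ee (x u : ℂ) : ℂ := x⁻¹ * (1 + qq x u) ^ (-1 / 2 : ℂ)

lemma one_add_qq {x u : ℂ} (hx : x ≠ 0) (hv : 5 + 3 * u ≠ 0) :
    1 + qq x u = cc x u / (81 * x ^ 2 * (5 + 3 * u) ^ 3) := by
  have hne : 81 * x ^ 2 * (5 + 3 * u) ^ 3 ≠ 0 := by simp [hx, hv]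
  unfold qq cc
  rw [eq_div_iff hne, add_mul, div_mul_cancel₀ _ hne]
  ring

/-- admissible pairs -/
structure Adm (x u : ℂ) : Prop where
  hx : x ≠ 0
  hv : 5 + 3 * u ≠ 0
  hq : ‖qq x u‖ < 1
  h1 : d1 x u ≠ 0
  h2 : d2 x u ≠ 0

lemma mem_slit {z : ℂ} (hz : ‖z‖ < 1) : 1 + z ∈ slitPlane :=
  Complex.mem_slitPlane_of_norm_lt_one hz

lemma cc_ne_zero {x u : ℂ} (hx : x ≠ 0) (hv : 5 + 3 * u ≠ 0) (hq : ‖qq x u‖ < 1) :
    cc x u ≠ 0 := by
  intro h
  have h1 := one_add_qq hx hv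
  rw [h, zero_div] at h1
  exact Complex.slitPlane_ne_zero (mem_slit hq) h1

lemma hd_congr {f g : ℂ → ℂ} {f' g' x : ℂ} (h : HasDerivAt f f' x) (hfg : ∀ y, f y = g y)
    (h' : f' = g') : HasDerivAt g g' x := by
  have h1 : f = g := funext hfg
  rw [← h1, ← h']
  exact h

lemma hasDerivAt_cpow_half {f : ℂ → ℂ} {f' z : ℂ} (hf : HasDerivAt f f' z)
    (h0 : 1 + f z ∈ slitPlane) :
    HasDerivAt (fun z => (1 + f z) ^ (-1 / 2 : ℂ))
      (-(f' / (2 * (1 + f z))) * (1 + f z) ^ (-1 / 2 : ℂ)) z := by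
  have h1 : HasDerivAt (fun z => 1 + f z) f' z := by
    simpa using hf.const_add 1
  have h2 := h1.cpow_const (c := (-1 / 2 : ℂ)) h0
  refine hd_congr h2 (fun y => rfl) ?_
  have h3 : (1 + f z) ≠ 0 := Complex.slitPlane_ne_zero h0
  rw [Complex.cpow_sub _ _ h3, Complex.cpow_one]
  field_simp

lemma hasDerivAt_v (u : ℂ) : HasDerivAt (fun u : ℂ => 5 + 3 * u) 3 u := by
  have := ((hasDerivAt_id u).const_mul 3).const_add 5
  simpa using this

lemma hasDerivAt_ee_x {x u : ℂ} (hx : x ≠ 0) (hv : 5 + 3 * u ≠ 0) (hq : ‖qq x u‖ < 1) :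
    HasDerivAt (fun x => ee x u) (-(ccx x u / (2 * cc x u)) * ee x u) x := by
  have hc := cc_ne_zero hx hv hq
  have h1 : HasDerivAt (fun x => qq x u)
      ((3 * (x - 75 * u) ^ 2 * x - 2 * (x - 75 * u) ^ 3) / (81 * x ^ 3 * (5 + 3 * u) ^ 3)) x := by
    have ha : HasDerivAt (fun x : ℂ => (x - 75 * u) ^ 3) (3 * (x - 75 * u) ^ 2) x :=
      hd_congr (((hasDerivAt_id x).sub_const (75 * u)).pow 3) (fun y => by simp) (by simp)
    have hb : HasDerivAt (fun x : ℂ => 81 * x ^ 2 * (5 + 3 * u) ^ 3)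
        (81 * (2 * x) * (5 + 3 * u) ^ 3) x :=
      hd_congr ((((hasDerivAt_id x).pow 2).const_mul 81).mul_const ((5 + 3 * u) ^ 3))
        (fun y => by simp) (by simp)
    have hne : 81 * x ^ 2 * (5 + 3 * u) ^ 3 ≠ 0 := by simp [hx, hv]
    refine hd_congr (ha.div hb hne) (fun y => rfl) ?_
    field_simp
  have h2 := hasDerivAt_cpow_half h1 (mem_slit hq)
  have h3 := (hasDerivAt_inv hx).mul h2
  refine hd_congr h3 (fun y => rfl) ?_
  unfold ee
  rw [one_add_qq hx hv]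
  set g := (cc x u / (81 * x ^ 2 * (5 + 3 * u) ^ 3)) ^ (-1 / 2 : ℂ)
  have e : -(ccx x u / (2 * cc x u)) * x⁻¹ = -(x ^ 2)⁻¹ + x⁻¹ *
      -((3 * (x - 75 * u) ^ 2 * x - 2 * (x - 75 * u) ^ 3) / (81 * x ^ 3 * (5 + 3 * u) ^ 3) /
        (2 * (cc x u / (81 * x ^ 2 * (5 + 3 * u) ^ 3)))) := by
    field_simp
    unfold ccx cc
    ring
  symm
  calc -(ccx x u / (2 * cc x u)) * (x⁻¹ * g) = (-(ccx x u / (2 * cc x u)) * x⁻¹) * g := by ring
    _ = _ := by rw [e]; ring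

lemma hasDerivAt_ee_u {x u : ℂ} (hx : x ≠ 0) (hv : 5 + 3 * u ≠ 0) (hq : ‖qq x u‖ < 1) :
    HasDerivAt (fun u => ee x u)
      ((9 / (2 * (5 + 3 * u)) - ccu x u / (2 * cc x u)) * ee x u) u := by
  have hc := cc_ne_zero hx hv hq
  have h1 : HasDerivAt (fun u => qq x u)
      ((-225 * (x - 75 * u) ^ 2 * (5 + 3 * u) - 9 * (x - 75 * u) ^ 3) /
        (81 * x ^ 2 * (5 + 3 * u) ^ 4)) u := by
    have ha : HasDerivAt (fun u : ℂ => (x - 75 * u) ^ 3) (3 * (x - 75 * u) ^ 2 * (-75)) u :=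
      hd_congr ((((hasDerivAt_id u).const_mul 75).const_sub x).pow 3) (fun y => by simp)
        (by simp)
    have hb : HasDerivAt (fun u : ℂ => 81 * x ^ 2 * (5 + 3 * u) ^ 3)
        (81 * x ^ 2 * (3 * (5 + 3 * u) ^ 2 * 3)) u :=
      hd_congr (((hasDerivAt_v u).pow 3).const_mul (81 * x ^ 2)) (fun y => by simp) (by simp)
    have hne : 81 * x ^ 2 * (5 + 3 * u) ^ 3 ≠ 0 := by simp [hx, hv]
    refine hd_congr (ha.div hb hne) (fun y => rfl) ?_
    rw [div_eq_div_iff (by simp [hx, hv]) (by simp [hx, hv])]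
    ring
  have h2 := hasDerivAt_cpow_half h1 (mem_slit hq)
  have h3 := h2.const_mul x⁻¹
  refine hd_congr h3 (fun y => rfl) ?_
  unfold ee
  rw [one_add_qq hx hv]
  set g := (cc x u / (81 * x ^ 2 * (5 + 3 * u) ^ 3)) ^ (-1 / 2 : ℂ)
  have e : (9 / (2 * (5 + 3 * u)) - ccu x u / (2 * cc x u)) =
      -((-225 * (x - 75 * u) ^ 2 * (5 + 3 * u) - 9 * (x - 75 * u) ^ 3) /
        (81 * x ^ 2 * (5 + 3 * u) ^ 4) /
        (2 * (cc x u / (81 * x ^ 2 * (5 + 3 * u) ^ 3)))) := by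
    have e1 : (-225 * (x - 75 * u) ^ 2 * (5 + 3 * u) - 9 * (x - 75 * u) ^ 3) /
        (81 * x ^ 2 * (5 + 3 * u) ^ 4) /
        (2 * (cc x u / (81 * x ^ 2 * (5 + 3 * u) ^ 3))) =
        (-225 * (x - 75 * u) ^ 2 * (5 + 3 * u) - 9 * (x - 75 * u) ^ 3) /
          (2 * (5 + 3 * u) * cc x u) := by
      rw [div_div, div_eq_div_iff (by simp [hx, hv, hc]) (by simp [hv, hc])]
      have e2 : 81 * x ^ 2 * (5 + 3 * u) ^ 4 * (2 * (cc x u / (81 * x ^ 2 * (5 + 3 * u) ^ 3))) =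
          2 * (5 + 3 * u) * cc x u := by
        have hne : 81 * x ^ 2 * (5 + 3 * u) ^ 3 ≠ 0 := by simp [hx, hv]
        have e3 : 81 * x ^ 2 * (5 + 3 * u) ^ 4 *
          (2 * (cc x u / (81 * x ^ 2 * (5 + 3 * u) ^ 3))) = 2 * (5 + 3 * u) *
            ((81 * x ^ 2 * (5 + 3 * u) ^ 3) * (cc x u / (81 * x ^ 2 * (5 + 3 * u) ^ 3))) := by
          ring
        rw [e3, mul_div_cancel₀ _ hne]
      rw [e2]
    rw [e1, div_sub_div _ _ (by simp [hv]) (by simp [hc]), ← neg_div,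
      div_eq_div_iff (by simp [hv, hc]) (by simp [hv, hc])]
    unfold ccu cc
    ring
  rw [e]
  ring

lemma hasDerivAt_Th {x u : ℂ} (hv : 5 + 3 * u ≠ 0) (h1 : d1 x u ≠ 0) (h2 : d2 x u ≠ 0) :
    HasDerivAt (fun u => Th x u) (Thu x u) u := by
  have hu := hasDerivAt_id u
  have hd2 : HasDerivAt (fun u => d2 x u) (d2u x u) u := by
    have a1 := (hu.pow 3).const_mul 52
    have a2 := hu.const_mul 525
    have a3 := ((hu.const_mul 2).add_const 1).pow 2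
    have a4 := (hu.const_mul x).mul a3
    have a5 := ((a1.sub a2).add_const 500).sub a4
    refine hd_congr a5 (fun y => ?_) ?_
    · simp [d2]
    · simp [d2u]
      ring
  have hd1 : HasDerivAt (fun u => d1 x u) (-(54 * u ^ 2 - 30 * u)) u := by
    have a1 := ((hu.pow 2).const_mul 3).mul ((hu.const_mul 6).sub_const 5)
    have a2 := a1.const_sub x
    refine hd_congr a2 (fun y => ?_) ?_
    · simp [d1]
    · simp
      ring
  have hQ : HasDerivAt (fun u => QQ x u) (QQu x u) u := by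
    have a1 := (hu.pow 3).const_mul 3076
    have a2 := (hu.pow 2).const_mul 7500
    have a3 := hu.const_mul 34575
    have a4 := ((hu.const_mul 2).add_const 1).const_mul x
    have a5 := (((hu.pow 2).const_mul 98).add (hu.const_mul 5)).sub_const 10
    have a6 := ((((a1.sub a2).sub a3).add_const 51500).sub (a4.mul a5)).const_mul 10
    refine hd_congr a6 (fun y => ?_) ?_
    · simp [QQ]
    · simp [QQu]
      ring
  have hk : HasDerivAt (fun u : ℂ => 210 * u * (14 * u - 5)) (210 * (28 * u - 5)) u := by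
    have a1 := (hu.const_mul 210).mul ((hu.const_mul 14).sub_const 5)
    refine hd_congr a1 (fun y => ?_) ?_
    · simp
    · simp
      ring
  have hvd := (hasDerivAt_v u).mul hd2
  have hne : (5 + 3 * u) * d2 x u ≠ 0 := mul_ne_zero hv h2
  exact (hQ.div hvd hne).add (hk.div hd1 h1)

/-- derivative of `Θ E` in `u` -/
lemma hasDerivAt_Th_ee {x u : ℂ} (h : Adm x u) :
    HasDerivAt (fun u => Th x u * ee x u)
      ((Thu x u + Th x u * (9 / (2 * (5 + 3 * u)) - ccu x u / (2 * cc x u))) * ee x u) u := by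
  have h3 := (hasDerivAt_Th h.hv h.h1 h.h2).mul (hasDerivAt_ee_u h.hx h.hv h.hq)
  refine hd_congr h3 (fun y => rfl) ?_
  ring

lemma hasDerivAt_v_ee {x u : ℂ} (hx : x ≠ 0) (hv : 5 + 3 * u ≠ 0) (hq : ‖qq x u‖ < 1) :
    HasDerivAt (fun u => 5 / (5 + 3 * u) * ee x u)
      (5 / (5 + 3 * u) * (3 / (2 * (5 + 3 * u)) - ccu x u / (2 * cc x u)) * ee x u) u := by
  have h1 : HasDerivAt (fun u : ℂ => 5 / (5 + 3 * u)) (-(5 * 3) / (5 + 3 * u) ^ 2) u :=
    hd_congr ((hasDerivAt_const u (5 : ℂ)).div (hasDerivAt_v u) hv) (fun y => rfl) (by simp)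
  have h3 := h1.mul (hasDerivAt_ee_u hx hv hq)
  refine hd_congr h3 (fun y => rfl) ?_
  have hc := cc_ne_zero hx hv hq
  have e : -(5 * 3) / (5 + 3 * u) ^ 2 = 5 / (5 + 3 * u) * (-3 / (5 + 3 * u)) := by
    field_simp
  have e2 : (9 : ℂ) / (2 * (5 + 3 * u)) = 3 / (2 * (5 + 3 * u)) + 3 / (5 + 3 * u) := by
    field_simp
    ring
  rw [e, e2]
  ring

lemma hasDerivAt_bb_ee {x u : ℂ} (h : Adm x u) :
    HasDerivAt (fun x => bb x u * ee x u)
      ((bbx x u - bb x u * (ccx x u / (2 * cc x u))) * ee x u) x := by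
  have hx := hasDerivAt_id x
  have hd1 : HasDerivAt (fun x => d1 x u) 1 x :=
    hd_congr (hx.sub_const (3 * u ^ 2 * (6 * u - 5))) (fun y => by simp [d1]) rfl
  have hd2 : HasDerivAt (fun x => d2 x u) (-(u * (2 * u + 1) ^ 2)) x :=
    hd_congr (((hx.mul_const u).mul_const ((2 * u + 1) ^ 2)).const_sub
      (52 * u ^ 3 - 525 * u + 500)) (fun y => by simp [d2]) (by simp)
  have hB : HasDerivAt (fun x => BB x u) (BBx x u) x := by
    have a1 := hx.const_mul (3 * (6562500 * u - 12671875 * u ^ 2 + 5268750 * u ^ 3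
      - 551250 * u ^ 4 - 170000 * u ^ 5 + 1534200 * u ^ 6 - 237600 * u ^ 7))
    have a2 := (hx.pow 2).const_mul (5062500 + 2120000 * u - 5207250 * u ^ 2 - 2055000 * u ^ 3
      + 1174405 * u ^ 4 + 456360 * u ^ 5 - 488700 * u ^ 6 - 278640 * u ^ 7)
    have a3 := (hx.pow 3).const_mul (500 - 1900 * u - 15545 * u ^ 2 - 53470 * u ^ 3
      - 56620 * u ^ 4 - 17640 * u ^ 5)
    have a4 := ((a1.const_add (3 * (-32812500 * u ^ 3 + 27421875 * u ^ 4 + 22500000 * u ^ 5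
      - 34912500 * u ^ 6 + 17550000 * u ^ 7))).add a2).add a3
    refine hd_congr a4 (fun y => ?_) ?_
    · simp [BB]
    · simp [BBx]
  have hden := (hd1.mul hd2).const_mul ((5 + 3 * u) ^ 2)
  have hne : (5 + 3 * u) ^ 2 * (d1 x u * d2 x u) ≠ 0 := by
    simp [h.hv, h.h1, h.h2]
  have hb : HasDerivAt (fun x => bb x u) (bbx x u) x := by
    have h5 := hB.div hden hne
    refine hd_congr h5 (fun y => rfl) ?_
    have h1 := h.h1
    have h2 := h.h2
    have hv := h.hv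
    unfold bbx
    simp only [Pi.mul_apply]
    field_simp
  have h6 := hb.mul (hasDerivAt_ee_x h.hx h.hv h.hq)
  refine hd_congr h6 (fun y => rfl) ?_
  ring

/-- the pointwise identity, multiplied by `E` -/
lemma key_ee {x u : ℂ} (h : Adm x u) :
    u * (1 - u) * ((Thu x u + Th x u * (9 / (2 * (5 + 3 * u)) - ccu x u / (2 * cc x u))) * ee x u)
        + (1 / 2 - u) * (Th x u * ee x u)
      = 357 * u * (5 / (5 + 3 * u) * (3 / (2 * (5 + 3 * u)) - ccu x u / (2 * cc x u)) * ee x u)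
        + 103 * (5 / (5 + 3 * u) * ee x u)
        + (bbx x u - bb x u * (ccx x u / (2 * cc x u))) * ee x u := by
  have h1 := key_identity x u h.hv h.h1 h.h2 (cc_ne_zero h.hx h.hv h.hq)
  have hv := h.hv
  have h2 : (515 : ℂ) / (5 + 3 * u) = 103 * (5 / (5 + 3 * u)) := by ring
  rw [h2] at h1
  linear_combination (ee x u) * h1

end Pool.Agent.R90
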