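import Pool.Agent.R90.Geom

/-!
# The residue at `x = 122` for `u = 1/2`
-/

namespace Pool.Agent.R90

open Complex Metric Set MeasureTheory Filter Topology

lemma annulus_residue {N : ℂ → ℂ} {r R : ℝ} (h0 : 0 < r) (hrR : r < R)
    (hN : ∀ z : ℂ, r ≤ ‖z‖ → ‖z‖ ≤ R → DifferentiableAt ℂ N z) {w : ℂ} (hw1 : r < ‖w‖)
    (hw2 : ‖w‖ < R) :
    (∮ z in C(0, R), (z - w)⁻¹ * N z) - (∮ z in C(0, r), (z - w)⁻¹ * N z)
      = 2 * Real.pi * I * N w := by
  have hwN := hN w hw1.le hw2.le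
  have hR : 0 < R := h0.trans hrR
  have hann : ∀ z ∈ closedBall (0 : ℂ) R \ ball 0 r, r ≤ ‖z‖ ∧ ‖z‖ ≤ R := by
    intro z hz
    constructor
    · have := hz.2
      simpa using this
    · simpa using hz.1
  have hc : ContinuousOn (dslope N w) (closedBall (0 : ℂ) R \ ball 0 r) := by
    intro z hz
    obtain ⟨h1, h2⟩ := hann z hz
    rcases eq_or_ne z w with rfl | hne
    · exact (continuousAt_dslope_same.2 hwN).continuousWithinAt
    · exact ((continuousAt_dslope_of_ne hne).2 (hN z h1 h2).continuousAt).continuousWithinAt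
  have hd : ∀ z ∈ (ball (0 : ℂ) R \ closedBall 0 r) \ {w}, DifferentiableAt ℂ (dslope N w) z := by
    intro z hz
    have hne : z ≠ w := by simpa using hz.2
    have h1 : r < ‖z‖ := by simpa using hz.1.2
    have h2 : ‖z‖ < R := by simpa using hz.1.1
    exact (differentiableAt_dslope_of_ne hne).2 (hN z h1.le h2.le)
  have key := circleIntegral_eq_of_differentiable_on_annulus_off_countable h0 hrR.le
    (countable_singleton w) hc hd
  have hsplit : ∀ ρ : ℝ, 0 < ρ → r ≤ ρ → ρ ≤ R → ρ ≠ ‖w‖ →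
      (∮ z in C(0, ρ), dslope N w z) =
        (∮ z in C(0, ρ), (z - w)⁻¹ * N z) - N w * (∮ z in C(0, ρ), (z - w)⁻¹) := by
    intro ρ hρ h1 h2 h3
    have hne : ∀ z ∈ sphere (0 : ℂ) ρ, z ≠ w := by
      intro z hz h4
      apply h3
      rw [← h4]
      simpa using hz.symm
    have c1 : ContinuousOn (fun z : ℂ => (z - w)⁻¹) (sphere 0 ρ) := by
      intro z hz
      exact ((continuousAt_id.sub continuousAt_const).inv₀
        (sub_ne_zero.2 (hne z hz))).continuousWithinAt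
    have c2 : ContinuousOn N (sphere 0 ρ) := by
      intro z hz
      have h5 : ‖z‖ = ρ := by simpa using hz
      exact (hN z (by rw [h5]; exact h1) (by rw [h5]; exact h2)).continuousAt.continuousWithinAt
    have i1 : CircleIntegrable (fun z : ℂ => (z - w)⁻¹ * N z) 0 ρ :=
      (c1.mul c2).circleIntegrable hρ.le
    have i2 : CircleIntegrable (fun z : ℂ => N w * (z - w)⁻¹) 0 ρ :=
      (continuousOn_const.mul c1).circleIntegrable hρ.le
    rw [← circleIntegral.integral_const_mul, ← circleIntegral.integral_sub i1 i2]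
    refine circleIntegral.integral_congr hρ.le fun z hz => ?_
    rw [dslope_of_ne _ (hne z hz), slope_def_module]
    simp only [smul_eq_mul]
    ring
  rw [hsplit R hR hrR.le le_rfl hw2.ne', hsplit r h0 le_rfl hrR.le hw1.ne] at key
  have j1 : (∮ z in C(0, R), (z - w)⁻¹) = 2 * Real.pi * I := by
    apply circleIntegral.integral_sub_inv_of_mem_ball
    simpa using hw2
  have j2 : (∮ z in C(0, r), (z - w)⁻¹) = 0 := by
    have hne : ∀ z ∈ closedBall (0 : ℂ) r, z - w ≠ 0 := by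
      intro z hz h4
      have : z = w := sub_eq_zero.1 h4
      have h5 : ‖z‖ ≤ r := by simpa using hz
      rw [this] at h5
      linarith
    refine circleIntegral_eq_zero_of_differentiable_on_off_countable h0.le countable_empty ?_ ?_
    · intro z hz
      exact ((continuousAt_id.sub continuousAt_const).inv₀ (hne z hz)).continuousWithinAt
    · intro z hz
      exact (differentiableAt_id.sub_const w).inv (hne z (ball_subset_closedBall hz.1))
  rw [j1, j2] at key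
  linear_combination key

/-- admissibility of `q` on the annulus at `u = 1/2` -/
lemma qq_half_lt {x : ℂ} (h1 : 50 ≤ ‖x‖) (h2 : ‖x‖ ≤ 200) : ‖qq x ((1 / 2 : ℝ) : ℂ)‖ < 1 := by
  refine norm_qq_lt (R := ‖x‖) (by linarith) rfl (by norm_num) ?_
  rw [abs_of_pos (by norm_num : (0 : ℝ) < 1 / 2)]
  have h3 : ‖x‖ + 75 * (1 / 2) ≤ 7 / 4 * ‖x‖ := by linarith
  have h4 : (‖x‖ + 75 * (1 / 2)) ^ 3 ≤ (7 / 4 * ‖x‖) ^ 3 := by gcongr
  have h5 : (7 / 4 * ‖x‖) ^ 3 = (7 / 4) ^ 3 * ‖x‖ * ‖x‖ ^ 2 := by ring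
  have h6 : (7 / 4 : ℝ) ^ 3 * ‖x‖ * ‖x‖ ^ 2 < 81 * ‖x‖ ^ 2 * (5 + 3 * (1 / 2)) ^ 3 := by
    have h7 : 0 < ‖x‖ ^ 2 := by positivity
    have h8 : (7 / 4 : ℝ) ^ 3 * ‖x‖ < 81 * (5 + 3 * (1 / 2)) ^ 3 := by
      norm_num
      linarith
    calc (7 / 4 : ℝ) ^ 3 * ‖x‖ * ‖x‖ ^ 2 < 81 * (5 + 3 * (1 / 2)) ^ 3 * ‖x‖ ^ 2 :=
          mul_lt_mul_of_pos_right h8 h7
      _ = _ := by ring
  linarith

lemma ee_122 : ee 122 ((1 / 2 : ℝ) : ℂ) = 9 / 1099 := by
  unfold ee
  have h1 : 1 + qq 122 ((1 / 2 : ℝ) : ℂ) = (((1099 / 1098 : ℝ) ^ 2 : ℝ) : ℂ) := by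
    unfold qq
    push_cast
    norm_num
  rw [h1]
  have h2 : ((((1099 / 1098 : ℝ) ^ 2 : ℝ) : ℂ)) ^ (-1 / 2 : ℂ) = ((1098 / 1099 : ℝ) : ℂ) := by
    have h3 : (-1 / 2 : ℂ) = ((-1 / 2 : ℝ) : ℂ) := by push_cast; ring
    rw [h3, ← Complex.ofReal_cpow (by positivity)]
    congr 1
    rw [← Real.rpow_natCast, ← Real.rpow_mul (by norm_num)]
    norm_num
  rw [h2]
  push_cast
  norm_num

lemma Th_half {x : ℂ} (h1 : x - 122 ≠ 0) :
    Th x ((1 / 2 : ℝ) : ℂ) =
      (x - 122)⁻¹ * (-(327220 - 340 * x) / 13) + 210 / (x + 3 / 2) := by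
  unfold Th
  have e1 : d2 x ((1 / 2 : ℝ) : ℂ) = -2 * (x - 122) := by
    unfold d2
    push_cast
    ring
  have e2 : d1 x ((1 / 2 : ℝ) : ℂ) = x + 3 / 2 := by
    unfold d1
    push_cast
    ring
  have e3 : QQ x ((1 / 2 : ℝ) : ℂ) = 327220 - 340 * x := by
    unfold QQ
    push_cast
    ring
  rw [e1, e2, e3]
  push_cast
  field_simp
  ring

theorem jump : AA 50 (1 / 2) - AA 200 (1 / 2) = 2 * Real.pi * I * 180 := by
  have hxne : ∀ x : ℂ, 50 ≤ ‖x‖ → x ≠ 0 := by
    intro x hx h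
    rw [h, norm_zero] at hx
    norm_num at hx
  have hvne : (5 : ℂ) + 3 * ((1 / 2 : ℝ) : ℂ) ≠ 0 := v_ne (by norm_num)
  have hee : ∀ x : ℂ, 50 ≤ ‖x‖ → ‖x‖ ≤ 200 →
      DifferentiableAt ℂ (fun x => ee x ((1 / 2 : ℝ) : ℂ)) x := fun x h1 h2 =>
    (hasDerivAt_ee_x (hxne x h1) hvne (qq_half_lt h1 h2)).differentiableAt
  have hne2 : ∀ x : ℂ, 50 ≤ ‖x‖ → x + 3 / 2 ≠ 0 := by
    intro x hx h
    have : x = -(3 / 2) := by linear_combination h
    rw [this, norm_neg] at hx
    norm_num at hx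
  set N : ℂ → ℂ := fun x => (-(327220 - 340 * x) / 13) * ee x ((1 / 2 : ℝ) : ℂ) with hN
  set M : ℂ → ℂ := fun x => 210 / (x + 3 / 2) * ee x ((1 / 2 : ℝ) : ℂ) with hM
  have dN : ∀ x : ℂ, 50 ≤ ‖x‖ → ‖x‖ ≤ 200 → DifferentiableAt ℂ N x := by
    intro x h1 h2
    exact DifferentiableAt.mul (by fun_prop) (hee x h1 h2)
  have dM : ∀ x : ℂ, 50 ≤ ‖x‖ → ‖x‖ ≤ 200 → DifferentiableAt ℂ M x := by
    intro x h1 h2
    exact DifferentiableAt.mul
      (DifferentiableAt.div (by fun_prop) (by fun_prop) (hne2 x h1)) (hee x h1 h2)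
  have resN := annulus_residue (N := N) (r := 50) (R := 200) (by norm_num) (by norm_num) dN
    (w := 122) (by norm_num) (by norm_num)
  have resM : (∮ z in C(0, 200), M z) = ∮ z in C(0, 50), M z := by
    refine circleIntegral_eq_of_differentiable_on_annulus_off_countable (by norm_num) (by norm_num)
      countable_empty ?_ ?_
    · intro z hz
      have h1 : 50 ≤ ‖z‖ := by simpa using hz.2
      have h2 : ‖z‖ ≤ 200 := by simpa using hz.1
      exact (dM z h1 h2).continuousAt.continuousWithinAt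
    · intro z hz
      have h1 : 50 < ‖z‖ := by simpa using hz.1.2
      have h2 : ‖z‖ < 200 := by simpa using hz.1.1
      exact dM z h1.le h2.le
  have hAA : ∀ ρ : ℝ, 50 ≤ ρ → ρ ≤ 200 → ρ ≠ 122 →
      AA ρ (1 / 2) = (∮ z in C(0, ρ), (z - 122)⁻¹ * N z) + ∮ z in C(0, ρ), M z := by
    intro ρ h1 h2 h3
    have hρ : 0 < ρ := by linarith
    have hs : ∀ z ∈ sphere (0 : ℂ) ρ, ‖z‖ = ρ := fun z hz => by simpa using hz
    have hne : ∀ z ∈ sphere (0 : ℂ) ρ, z - 122 ≠ 0 := by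
      intro z hz h4
      apply h3
      rw [← hs z hz, sub_eq_zero.1 h4]
      norm_num
    have c1 : ContinuousOn (fun z : ℂ => (z - 122)⁻¹) (sphere 0 ρ) := by
      intro z hz
      exact ((continuousAt_id.sub continuousAt_const).inv₀ (hne z hz)).continuousWithinAt
    have c2 : ContinuousOn N (sphere 0 ρ) := by
      intro z hz
      have h5 := hs z hz
      exact (dN z (by rw [h5]; exact h1) (by rw [h5]; exact h2)).continuousAt.continuousWithinAt
    have c3 : ContinuousOn M (sphere 0 ρ) := by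
      intro z hz
      have h5 := hs z hz
      exact (dM z (by rw [h5]; exact h1) (by rw [h5]; exact h2)).continuousAt.continuousWithinAt
    have i1 : CircleIntegrable (fun z : ℂ => (z - 122)⁻¹ * N z) 0 ρ :=
      (c1.mul c2).circleIntegrable hρ.le
    have i2 : CircleIntegrable M 0 ρ := c3.circleIntegrable hρ.le
    unfold AA
    rw [← circleIntegral.integral_add i1 i2]
    refine circleIntegral.integral_congr hρ.le fun z hz => ?_
    simp only [hN, hM]
    rw [Th_half (hne z hz)]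
    ring
  rw [hAA 50 le_rfl (by norm_num) (by norm_num), hAA 200 (by norm_num) le_rfl (by norm_num), resM]
  have hN122 : N 122 = -180 := by
    simp only [hN]
    rw [ee_122]
    norm_num
  rw [hN122] at resN
  linear_combination -resN

end Pool.Agent.R90
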