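import Pool.Agent.R90.Series2
import Pool.Agent.R90.Residue

/-!
# The value of the series
-/

namespace Pool.Agent.R90

open Metric Set MeasureTheory Filter Topology

lemma hasSum_antidiagonal {g : ℕ × ℕ → ℝ} (hg : Summable g) :
    HasSum (fun n => ∑ p ∈ Finset.HasAntidiagonal.antidiagonal n, g p) (∑' p, g p) := by
  have h1 := (Finset.HasAntidiagonal.sigmaAntidiagonalEquivProd (A := ℕ)).hasSum_iff.2 hg.hasSum
  have h2 := h1.sigma (g := fun n => ∑ p ∈ Finset.HasAntidiagonal.antidiagonal n, g p) ?_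
  · exact h2
  · intro n
    have h3 := hasSum_fintype (fun p : Finset.HasAntidiagonal.antidiagonal n => g p)
    rw [Finset.sum_coe_sort (Finset.HasAntidiagonal.antidiagonal n) g] at h3
    exact h3

lemma tt_scale (u : ℝ) (p : ℕ × ℕ) :
    tt (u / 540) (-3 / 5 * u) p.1 p.2 = tt (1 / 540) (-3 / 5) p.1 p.2 * u ^ (p.1 + p.2) := by
  unfold tt
  rw [div_pow, mul_pow, pow_add, one_div, inv_pow]
  ring

lemma summable_ttu {u : ℝ} (hu : |u| ≤ 1) :
    Summable (fun p : ℕ × ℕ => tt (u / 540) (-3 / 5 * u) p.1 p.2) := by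
  refine Summable.of_norm_bounded summable_tt0 fun p => ?_
  rw [tt_scale, Real.norm_eq_abs, abs_mul, abs_tt_eq, abs_pow]
  have h0 : 0 ≤ tt (1 / 535) (324 / 535) p.1 p.2 := tt_nonneg (by norm_num) (by norm_num) _ _
  have h1 : |u| ^ (p.1 + p.2) ≤ 1 := pow_le_one₀ (abs_nonneg _) hu
  have h2 : (107 / 108 : ℝ) ^ (p.1 + p.2) ≤ 1 := pow_le_one₀ (by norm_num) (by norm_num)
  calc (107 / 108 : ℝ) ^ (p.1 + p.2) * tt (1 / 535) (324 / 535) p.1 p.2 * |u| ^ (p.1 + p.2)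
      ≤ 1 * tt (1 / 535) (324 / 535) p.1 p.2 * 1 := by gcongr
    _ = _ := by ring

lemma hasSum_Phi_k {u : ℝ} (h0 : 0 ≤ u) (h1 : u ≤ 1) :
    HasSum (fun k : ℕ => 5 / (5 + 3 * u) * (((3 * k).choose k : ℝ) * (k.centralBinom : ℝ) *
      (25 * u / (108 * (5 + 3 * u) ^ 3)) ^ k)) (Phi u) := by
  have habs : |u| ≤ 1 := by rw [abs_of_nonneg h0]; exact h1
  have hs := summable_ttu habs
  have e1 : (∑' p : ℕ × ℕ, tt (u / 540) (-3 / 5 * u) p.1 p.2) = Phi u := by
    unfold Phi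
    rw [← (hasSum_antidiagonal hs).tsum_eq]
    congr 1
    funext n
    rw [aa_eq, Finset.sum_mul]
    refine Finset.sum_congr rfl fun p hp => ?_
    rw [tt_scale, Finset.HasAntidiagonal.mem_antidiagonal.1 hp]
  have hs1 : |(-3 / 5 * u : ℝ)| < 1 := by
    rw [abs_lt]
    constructor <;> linarith
  have h2 := hs.hasSum.prod_fiberwise (fun k => hasSum_tt (u / 540) hs1 k)
  rw [e1] at h2
  refine h2.congr_fun ?_
  intro k
  have hv : (5 + 3 * u) ≠ 0 := by linarith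
  have e2 : 1 - -3 / 5 * u = (5 + 3 * u) / 5 := by ring
  rw [e2]
  have e3 : (u / 540) ^ k * (1 / ((5 + 3 * u) / 5) ^ (3 * k + 1)) =
      5 / (5 + 3 * u) * (25 * u / (108 * (5 + 3 * u) ^ 3)) ^ k := by
    rw [pow_succ, pow_mul, one_div, mul_inv, ← inv_pow, ← mul_assoc, ← mul_pow, mul_comm]
    congr 1
    · rw [inv_div]
    · congr 1
      field_simp
      ring
  calc 5 / (5 + 3 * u) * (((3 * k).choose k : ℝ) * (k.centralBinom : ℝ) *
      (25 * u / (108 * (5 + 3 * u) ^ 3)) ^ k)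
      = ((3 * k).choose k : ℝ) * (k.centralBinom : ℝ) * (5 / (5 + 3 * u) *
        (25 * u / (108 * (5 + 3 * u) ^ 3)) ^ k) := by ring
    _ = _ := by rw [← e3]; ring

lemma PP_eq {R : ℝ} (hR : 0 < R) {u : ℝ} (h0 : 0 ≤ u) (h1 : u ≤ 1)
    (h : (R + 75 * |u|) ^ 3 < 81 * R ^ 2 * (5 + 3 * u) ^ 3) :
    PP R u = 2 * Real.pi * Complex.I * (Phi u : ℂ) := by
  have hv : 0 < 5 + 3 * u := by linarith
  have a1 := hasSum_PP hR hv h
  have a2 := (Complex.hasSum_ofReal.2 (hasSum_Phi_k h0 h1)).mul_left (2 * Real.pi * Complex.I)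
  refine a1.unique (a2.congr_fun ?_)
  intro k
  push_cast
  ring

lemma cond50 {u : ℝ} (h0 : 0 ≤ u) (h1 : u ≤ 1) :
    ((50 : ℝ) + 75 * |u|) ^ 3 < 81 * 50 ^ 2 * (5 + 3 * u) ^ 3 := by
  rw [abs_of_nonneg h0]
  have h2 : ((50 : ℝ) + 75 * u) ^ 3 ≤ (50 + 75 * 1) ^ 3 := by gcongr
  have h3 : (5 : ℝ) ^ 3 ≤ (5 + 3 * u) ^ 3 := pow_le_pow_left₀ (by norm_num) (by linarith) 3
  nlinarith

lemma cond200 {u : ℝ} (h0 : 0 ≤ u) (h1 : u ≤ 1) :
    ((200 : ℝ) + 75 * |u|) ^ 3 < 81 * 200 ^ 2 * (5 + 3 * u) ^ 3 := by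
  rw [abs_of_nonneg h0]
  have h2 : ((200 : ℝ) + 75 * u) ^ 3 ≤ (200 + 75 * 1) ^ 3 := by gcongr
  have h3 : (5 : ℝ) ^ 3 ≤ (5 + 3 * u) ^ 3 := pow_le_pow_left₀ (by norm_num) (by linarith) 3
  nlinarith

/-- the integrand -/
noncomputable def HH (u : ℝ) : ℝ := 357 * u * Phi' u + 103 * Phi u

lemma summable_terms_bound (n : ℕ) (φ : ℝ) :
    ‖(357 * (n : ℝ) + 103) * aa n * (Real.sin φ ^ 2) ^ n‖ ≤
      (357 * (n : ℝ) + 103) * (KK * (107 / 108) ^ n) := by
  have h1 : |Real.sin φ ^ 2| ≤ 1 := by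
    rw [abs_of_nonneg (sq_nonneg _)]
    exact Real.sin_sq_le_one φ
  rw [Real.norm_eq_abs, abs_mul, abs_mul, abs_pow, abs_of_nonneg (by positivity :
    (0 : ℝ) ≤ 357 * (n : ℝ) + 103)]
  have h2 : |Real.sin φ ^ 2| ^ n ≤ 1 := pow_le_one₀ (abs_nonneg _) h1
  have h3 := abs_aa_le n
  calc (357 * (n : ℝ) + 103) * |aa n| * |Real.sin φ ^ 2| ^ n
      ≤ (357 * (n : ℝ) + 103) * (KK * (107 / 108) ^ n) * 1 := by
        have h4 : 0 ≤ KK * (107 / 108 : ℝ) ^ n := mul_nonneg KK_nonneg (by positivity)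
        gcongr
    _ = _ := by ring

lemma abs_sin_sq (φ : ℝ) : |Real.sin φ ^ 2| ≤ 1 := by
  rw [abs_of_nonneg (sq_nonneg _)]
  exact Real.sin_sq_le_one φ

lemma continuous_HH : Continuous (fun φ : ℝ => HH (Real.sin φ ^ 2)) := by
  have h1 : (fun φ : ℝ => HH (Real.sin φ ^ 2)) =
      fun φ => ∑' n : ℕ, (357 * (n : ℝ) + 103) * aa n * (Real.sin φ ^ 2) ^ n := by
    funext φ
    exact (hasSum_H (abs_sin_sq φ)).tsum_eq.symm
  rw [h1]
  refine continuous_tsum (fun n => ?_) summable_bound summable_terms_bound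
  exact continuous_const.mul ((Real.continuous_sin.pow 2).pow n)

section

variable {R a b : ℝ} (hR : 0 < R)
  (hadm : ∀ x : ℂ, ‖x‖ = R → ∀ u : ℝ, u ∈ Ioo a b → Adm x u)
  (hcond : ∀ u : ℝ, 0 ≤ u → u ≤ 1 → (R + 75 * |u|) ^ 3 < 81 * R ^ 2 * (5 + 3 * u) ^ 3)

include hR hadm hcond

lemma key_HH {u : ℝ} (hu : u ∈ Ioo a b) (h0 : 0 < u) (h1 : u < 1) :
    (u : ℂ) * (1 - u) * AA' R u + (1 / 2 - u) * AA R u
      = 2 * Real.pi * Complex.I * (HH u : ℂ) := by
  rw [key_integral hR hadm hu]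
  have e1 : PP R u = 2 * Real.pi * Complex.I * (Phi u : ℂ) :=
    PP_eq hR h0.le h1.le (hcond u h0.le h1.le)
  have e2 : PP' R u = 2 * Real.pi * Complex.I * (Phi' u : ℂ) := by
    have d1 := hasDerivAt_PP hR hadm hu
    have d2 : HasDerivAt (fun u : ℝ => 2 * Real.pi * Complex.I * (Phi u : ℂ))
        (2 * Real.pi * Complex.I * (Phi' u : ℂ)) u :=
      ((hasDerivAt_Phi ⟨by linarith, h1⟩).ofReal_comp).const_mul _
    have d3 : HasDerivAt (PP R) (2 * Real.pi * Complex.I * (Phi' u : ℂ)) u := by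
      refine d2.congr_of_eventuallyEq ?_
      filter_upwards [Ioo_mem_nhds h0 h1] with y hy
      exact PP_eq hR hy.1.le hy.2.le (hcond y hy.1.le hy.2.le)
    exact d1.unique d3
  rw [e1, e2]
  unfold HH
  push_cast
  ring

/-- the primitive along `u = sin² φ` -/
lemma integral_piece {α β : ℝ} (hαβ : α ≤ β)
    (hclosed : ∀ φ ∈ Icc α β, Real.sin φ ^ 2 ∈ Ioo a b)
    (hopen : ∀ φ ∈ Ioo α β, 0 < Real.sin φ ^ 2 ∧ Real.sin φ ^ 2 < 1) :
    (∫ φ in α..β, 4 * Real.pi * Complex.I * (HH (Real.sin φ ^ 2) : ℂ)) =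
      (Real.sin β * Real.cos β : ℝ) * AA R (Real.sin β ^ 2) -
      (Real.sin α * Real.cos α : ℝ) * AA R (Real.sin α ^ 2) := by
  have hder : ∀ φ : ℝ, Real.sin φ ^ 2 ∈ Ioo a b →
      HasDerivAt (fun φ : ℝ => ((Real.sin φ * Real.cos φ : ℝ) : ℂ) * AA R (Real.sin φ ^ 2))
        (((Real.cos φ * Real.cos φ + Real.sin φ * (-Real.sin φ) : ℝ) : ℂ) *
          AA R (Real.sin φ ^ 2) + ((Real.sin φ * Real.cos φ : ℝ) : ℂ) *
          ((2 * Real.sin φ * Real.cos φ : ℝ) • AA' R (Real.sin φ ^ 2))) φ := by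
    intro φ hφ
    have h1 := ((Real.hasDerivAt_sin φ).mul (Real.hasDerivAt_cos φ)).ofReal_comp
    have h2 : HasDerivAt (fun φ => Real.sin φ ^ 2) (2 * Real.sin φ * Real.cos φ) φ := by
      have := (Real.hasDerivAt_sin φ).fun_pow 2
      simpa using this
    have h3 : HasDerivAt (fun φ => AA R (Real.sin φ ^ 2))
        ((2 * Real.sin φ * Real.cos φ : ℝ) • AA' R (Real.sin φ ^ 2)) φ :=
      HasDerivAt.scomp (h := fun φ => Real.sin φ ^ 2) φ (hasDerivAt_AA hR hadm hφ) h2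
    exact h1.mul h3
  refine intervalIntegral.integral_eq_sub_of_hasDeriv_right_of_le hαβ
    (f := fun φ : ℝ => ((Real.sin φ * Real.cos φ : ℝ) : ℂ) * AA R (Real.sin φ ^ 2)) ?_ ?_ ?_
  · intro φ hφ
    exact (hder φ (hclosed φ hφ)).continuousAt.continuousWithinAt
  · intro φ hφ
    have hmem := hclosed φ (Ioo_subset_Icc_self hφ)
    have h1 := hder φ hmem
    obtain ⟨h2, h3⟩ := hopen φ hφ
    have h4 := key_HH hR hadm hcond hmem h2 h3
    refine HasDerivAt.hasDerivWithinAt ?_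
    have h5 : 4 * (Real.pi : ℂ) * Complex.I * (HH (Real.sin φ ^ 2) : ℂ) =
        (((Real.cos φ * Real.cos φ + Real.sin φ * (-Real.sin φ) : ℝ) : ℂ) *
          AA R (Real.sin φ ^ 2) + ((Real.sin φ * Real.cos φ : ℝ) : ℂ) *
          ((2 * Real.sin φ * Real.cos φ : ℝ) • AA' R (Real.sin φ ^ 2))) := by
      have h6 : (Real.cos φ : ℂ) ^ 2 = 1 - (Real.sin φ : ℂ) ^ 2 := by
        have := Real.cos_sq' φ
        exact_mod_cast congrArg (fun t : ℝ => (t : ℂ)) this
      rw [Complex.real_smul]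
      push_cast at h4 h6 ⊢
      linear_combination (-2) * h4 - (AA R (Real.sin φ ^ 2) + 2 * (Complex.sin φ) ^ 2 *
        AA' R (Real.sin φ ^ 2)) * h6
    rw [h5]
    exact h1
  · exact (continuous_const.mul (Complex.continuous_ofReal.comp continuous_HH)).intervalIntegrable
      _ _

end

theorem integral_HH : (∫ φ in (0 : ℝ)..Real.pi, HH (Real.sin φ ^ 2)) = 90 := by
  have hπ := Real.pi_pos
  have hint : ∀ α β : ℝ, IntervalIntegrable (fun φ => HH (Real.sin φ ^ 2)) volume α β :=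
    fun α β => continuous_HH.intervalIntegrable α β
  have hintc : ∀ α β : ℝ, IntervalIntegrable
      (fun φ => 4 * Real.pi * Complex.I * (HH (Real.sin φ ^ 2) : ℂ)) volume α β :=
    fun α β => (continuous_const.mul
      (Complex.continuous_ofReal.comp continuous_HH)).intervalIntegrable _ _
  have s4 : Real.sin (Real.pi / 4) ^ 2 = 1 / 2 := by
    rw [Real.sin_pi_div_four, div_pow, Real.sq_sqrt (by norm_num)]
    norm_num
  have s34 : Real.sin (3 * Real.pi / 4) = Real.sin (Real.pi / 4) := by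
    rw [← Real.sin_pi_sub]
    congr 1
    ring
  have c34 : Real.cos (3 * Real.pi / 4) = -Real.cos (Real.pi / 4) := by
    rw [← Real.cos_pi_sub]
    congr 1
    ring
  have sc4 : Real.sin (Real.pi / 4) * Real.cos (Real.pi / 4) = 1 / 2 := by
    rw [Real.sin_pi_div_four, Real.cos_pi_div_four]
    have : Real.sqrt 2 * Real.sqrt 2 = 2 := Real.mul_self_sqrt (by norm_num)
    linarith
  -- bounds for `sin²`
  have hle1 : ∀ φ ∈ Icc (0 : ℝ) (Real.pi / 4), Real.sin φ ^ 2 ≤ 1 / 2 := by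
    intro φ hφ
    rw [← s4]
    have h1 : Real.sin φ ≤ Real.sin (Real.pi / 4) :=
      Real.sin_le_sin_of_le_of_le_pi_div_two (by linarith [hφ.1]) (by linarith) hφ.2
    have h2 : 0 ≤ Real.sin φ := Real.sin_nonneg_of_nonneg_of_le_pi hφ.1 (by linarith [hφ.2])
    gcongr
  have hge1 : ∀ φ ∈ Icc (Real.pi / 4) (Real.pi / 2), 1 / 2 ≤ Real.sin φ ^ 2 := by
    intro φ hφ
    rw [← s4]
    have h1 : Real.sin (Real.pi / 4) ≤ Real.sin φ :=
      Real.sin_le_sin_of_le_of_le_pi_div_two (by linarith) hφ.2 hφ.1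
    have h2 : 0 ≤ Real.sin (Real.pi / 4) :=
      Real.sin_nonneg_of_nonneg_of_le_pi (by linarith) (by linarith)
    gcongr
  have hsymm : ∀ φ : ℝ, Real.sin φ ^ 2 = Real.sin (Real.pi - φ) ^ 2 := by
    intro φ
    rw [Real.sin_pi_sub]
  have hpos : ∀ φ ∈ Ioo (0 : ℝ) Real.pi, 0 < Real.sin φ ^ 2 := by
    intro φ hφ
    have := Real.sin_pos_of_pos_of_lt_pi hφ.1 hφ.2
    positivity
  have hlt : ∀ φ ∈ Ioo (0 : ℝ) Real.pi, φ ≠ Real.pi / 2 → Real.sin φ ^ 2 < 1 := by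
    intro φ hφ hne
    have h1 : Real.cos φ ≠ 0 := by
      intro h0
      apply hne
      rcases lt_trichotomy φ (Real.pi / 2) with h | h | h
      · have := Real.cos_pos_of_mem_Ioo ⟨by linarith [hφ.1], h⟩
        linarith
      · exact h
      · have := Real.cos_neg_of_pi_div_two_lt_of_lt h (by linarith [hφ.2])
        linarith
    have h2 : 0 < Real.cos φ ^ 2 := by positivity
    have h3 := Real.sin_sq_add_cos_sq φ
    linarith
  have p1 := integral_piece (R := 50) (by norm_num) (fun x hx u hu => adm50 hx hu)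
    (fun u h0 h1 => cond50 h0 h1) (α := 0) (β := Real.pi / 4) (by linarith)
    (fun φ hφ => ⟨by linarith [sq_nonneg (Real.sin φ)], by linarith [hle1 φ hφ]⟩)
    (fun φ hφ => ⟨hpos φ ⟨hφ.1, by linarith [hφ.2]⟩,
      hlt φ ⟨hφ.1, by linarith [hφ.2]⟩ (by have := hφ.2; intro h; linarith)⟩)
  have p2 := integral_piece (R := 200) (by norm_num) (fun x hx u hu => adm200 hx hu)
    (fun u h0 h1 => cond200 h0 h1) (α := Real.pi / 4) (β := Real.pi / 2) (by linarith)
    (fun φ hφ => ⟨by linarith [hge1 φ hφ], by linarith [Real.sin_sq_le_one φ]⟩)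
    (fun φ hφ => ⟨hpos φ ⟨by linarith [hφ.1], by linarith [hφ.2]⟩,
      hlt φ ⟨by linarith [hφ.1], by linarith [hφ.2]⟩ (by have := hφ.2; intro h; linarith)⟩)
  have p3 := integral_piece (R := 200) (by norm_num) (fun x hx u hu => adm200 hx hu)
    (fun u h0 h1 => cond200 h0 h1) (α := Real.pi / 2) (β := 3 * Real.pi / 4) (by linarith)
    (fun φ hφ => ⟨by
      have h1 := hge1 (Real.pi - φ) ⟨by linarith [hφ.2], by linarith [hφ.1]⟩
      rw [← hsymm] at h1
      linarith, by linarith [Real.sin_sq_le_one φ]⟩)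
    (fun φ hφ => ⟨hpos φ ⟨by linarith [hφ.1], by linarith [hφ.2]⟩,
      hlt φ ⟨by linarith [hφ.1], by linarith [hφ.2]⟩ (by have := hφ.1; intro h; linarith)⟩)
  have p4 := integral_piece (R := 50) (by norm_num) (fun x hx u hu => adm50 hx hu)
    (fun u h0 h1 => cond50 h0 h1) (α := 3 * Real.pi / 4) (β := Real.pi) (by linarith)
    (fun φ hφ => ⟨by linarith [sq_nonneg (Real.sin φ)], by
      have h1 := hle1 (Real.pi - φ) ⟨by linarith [hφ.2], by linarith [hφ.1]⟩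
      rw [← hsymm] at h1
      linarith⟩)
    (fun φ hφ => ⟨hpos φ ⟨by linarith [hφ.1], hφ.2⟩,
      hlt φ ⟨by linarith [hφ.1], hφ.2⟩ (by have := hφ.1; intro h; linarith)⟩)
  have sum1 := intervalIntegral.integral_add_adjacent_intervals (hintc 0 (Real.pi / 4))
    (hintc (Real.pi / 4) (Real.pi / 2))
  have sum2 := intervalIntegral.integral_add_adjacent_intervals (hintc 0 (Real.pi / 2))
    (hintc (Real.pi / 2) (3 * Real.pi / 4))
  have sum3 := intervalIntegral.integral_add_adjacent_intervals (hintc 0 (3 * Real.pi / 4))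
    (hintc (3 * Real.pi / 4) Real.pi)
  rw [p1] at sum1
  rw [p2] at sum1
  rw [← sum1, p3] at sum2
  rw [← sum2, p4] at sum3
  rw [s34, c34, s4] at sum3
  rw [Real.sin_zero, Real.sin_pi, Real.cos_pi_div_two] at sum3
  have sc4' : Real.sin (Real.pi / 4) * -Real.cos (Real.pi / 4) = -(1 / 2) := by
    rw [mul_neg, sc4]
  rw [sc4, sc4'] at sum3
  have hj := jump
  have h7 : (∫ φ in (0 : ℝ)..Real.pi, 4 * Real.pi * Complex.I * (HH (Real.sin φ ^ 2) : ℂ)) =
      4 * Real.pi * Complex.I * ((∫ φ in (0 : ℝ)..Real.pi, HH (Real.sin φ ^ 2) : ℝ) : ℂ) := by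
    rw [intervalIntegral.integral_const_mul, intervalIntegral.integral_ofReal]
  rw [h7] at sum3
  push_cast at sum3
  have h8 : 4 * Real.pi * Complex.I * ((∫ φ in (0 : ℝ)..Real.pi, HH (Real.sin φ ^ 2) : ℝ) : ℂ) =
      4 * Real.pi * Complex.I * ((90 : ℝ) : ℂ) := by
    push_cast
    linear_combination -sum3 + hj
  have h9 : (4 * Real.pi * Complex.I : ℂ) ≠ 0 := by
    simp [Complex.I_ne_zero, Real.pi_ne_zero]
  exact_mod_cast mul_left_cancel₀ h9 h8

lemma wallis (n : ℕ) : (∫ φ in (0 : ℝ)..Real.pi, (Real.sin φ ^ 2) ^ n) =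
    Real.pi * ((n.centralBinom : ℝ) / 4 ^ n) := by
  have h1 : (∫ φ in (0 : ℝ)..Real.pi, (Real.sin φ ^ 2) ^ n) =
      ∫ φ in (0 : ℝ)..Real.pi, Real.sin φ ^ (2 * n) := by
    refine intervalIntegral.integral_congr fun φ _ => ?_
    simp only [pow_mul]
  rw [h1, integral_sin_pow_even]
  congr 1
  induction n with
  | zero => simp
  | succ n ih =>
    rw [Finset.prod_range_succ]
    have h1 : (∏ i ∈ Finset.range n, (2 * (i : ℝ) + 1) / (2 * i + 2)) =
        (n.centralBinom : ℝ) / 4 ^ n := by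
      apply ih
      refine intervalIntegral.integral_congr fun φ _ => ?_
      simp only [pow_mul]
    rw [h1]
    have h2 : ((n : ℝ) + 1) * ((n + 1).centralBinom : ℝ) = 2 * (2 * n + 1) * n.centralBinom := by
      exact_mod_cast Nat.succ_mul_centralBinom_succ n
    have h3 : (n : ℝ) + 1 ≠ 0 := by positivity
    have h4 : ((n + 1).centralBinom : ℝ) = 2 * (2 * n + 1) * n.centralBinom / (n + 1) := by
      field_simp
      linarith
    rw [h4, pow_succ]
    field_simp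
    ring

/-- **The main theorem.** -/
theorem main : HasSum (fun n : ℕ => (357 * (n : ℝ) + 103) / 2160 ^ n *
    (((2 * n).choose n : ℝ) * ∑ k ∈ Finset.range (n + 1), (n.choose k : ℝ) *
      ((n + 2 * k).choose (2 * k) : ℝ) * ((2 * k).choose k : ℝ) * (-324) ^ (n - k)))
    (90 / Real.pi) := by
  have h1 : HasSum (fun n : ℕ => ∫ φ in (0 : ℝ)..Real.pi,
      (357 * (n : ℝ) + 103) * aa n * (Real.sin φ ^ 2) ^ n)
      (∫ φ in (0 : ℝ)..Real.pi, HH (Real.sin φ ^ 2)) := by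
    refine intervalIntegral.hasSum_integral_of_dominated_convergence
      (fun n _ => (357 * (n : ℝ) + 103) * (KK * (107 / 108) ^ n)) ?_ ?_ ?_ ?_ ?_
    · intro n
      exact (continuous_const.mul ((Real.continuous_sin.pow 2).pow n)).aestronglyMeasurable
    · intro n
      exact Eventually.of_forall fun φ _ => summable_terms_bound n φ
    · exact Eventually.of_forall fun φ _ => summable_bound
    · exact intervalIntegrable_const
    · exact Eventually.of_forall fun φ _ => hasSum_H (abs_sin_sq φ)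
  rw [integral_HH] at h1
  have h2 := h1.mul_left (1 / Real.pi)
  have e : 1 / Real.pi * 90 = 90 / Real.pi := by ring
  rw [e] at h2
  refine h2.congr_fun ?_
  intro n
  rw [intervalIntegral.integral_const_mul, wallis]
  have hπ := Real.pi_ne_zero
  unfold aa Nat.centralBinom
  have h3 : (2160 : ℝ) ^ n = 540 ^ n * 4 ^ n := by
    rw [← mul_pow]
    norm_num
  rw [h3]
  field_simp

end Pool.Agent.R90
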