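import Pool.Agent.R90.Param

/-!
# Admissibility on the two circles, continuity, and the two differentiation results
-/

namespace Pool.Agent.R90

open Complex Metric Set MeasureTheory Filter Topology

lemma norm_qq_lt {x : ℂ} {u : ℝ} {R : ℝ} (hR : 0 < R) (hx : ‖x‖ = R) (hv : 0 < 5 + 3 * u)
    (h : (R + 75 * |u|) ^ 3 < 81 * R ^ 2 * (5 + 3 * u) ^ 3) : ‖qq x u‖ < 1 := by
  unfold qq
  have h1 : ‖x - 75 * (u : ℂ)‖ ≤ R + 75 * |u| := by
    calc ‖x - 75 * (u : ℂ)‖ ≤ ‖x‖ + ‖75 * (u : ℂ)‖ := norm_sub_le _ _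
      _ = R + 75 * |u| := by
        rw [hx, norm_mul, Complex.norm_real, Real.norm_eq_abs]
        norm_num
  have h2 : ‖81 * x ^ 2 * (5 + 3 * (u : ℂ)) ^ 3‖ = 81 * R ^ 2 * (5 + 3 * u) ^ 3 := by
    have : (5 + 3 * (u : ℂ)) = ((5 + 3 * u : ℝ) : ℂ) := by push_cast; ring
    rw [norm_mul, norm_mul, norm_pow, norm_pow, hx, this, Complex.norm_real, Real.norm_eq_abs,
      abs_of_pos hv]
    norm_num
  rw [norm_div, norm_pow, h2, div_lt_one (by positivity)]
  calc ‖x - 75 * (u : ℂ)‖ ^ 3 ≤ (R + 75 * |u|) ^ 3 := by gcongr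
    _ < _ := h

lemma v_ne {u : ℝ} (hv : 0 < 5 + 3 * u) : (5 : ℂ) + 3 * (u : ℂ) ≠ 0 := by
  have : (5 + 3 * (u : ℂ)) = ((5 + 3 * u : ℝ) : ℂ) := by push_cast; ring
  rw [this]
  exact_mod_cast hv.ne'

lemma d1_ne {x : ℂ} {u : ℝ} (h : |3 * u ^ 2 * (6 * u - 5)| < ‖x‖) : d1 x u ≠ 0 := by
  intro h0
  unfold d1 at h0
  have h1 : x = ((3 * u ^ 2 * (6 * u - 5) : ℝ) : ℂ) := by
    push_cast
    linear_combination h0
  rw [h1, Complex.norm_real, Real.norm_eq_abs] at h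
  exact lt_irrefl _ h

lemma d2_ne {x : ℂ} {u : ℝ} (h : |52 * u ^ 3 - 525 * u + 500| ≠ ‖x‖ * |u * (2 * u + 1) ^ 2|) :
    d2 x u ≠ 0 := by
  intro h0
  unfold d2 at h0
  apply h
  have h1 : x * ((u * (2 * u + 1) ^ 2 : ℝ) : ℂ) = ((52 * u ^ 3 - 525 * u + 500 : ℝ) : ℂ) := by
    push_cast
    linear_combination -h0
  have h2 := congrArg norm h1
  rw [norm_mul, Complex.norm_real, Complex.norm_real, Real.norm_eq_abs, Real.norm_eq_abs] at h2
  exact h2.symm

lemma adm50 {x : ℂ} (hx : ‖x‖ = 50) {u : ℝ} (h : u ∈ Ioo (-1 / 10 : ℝ) (11 / 20)) :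
    Adm x u := by
  obtain ⟨ha, hb⟩ := h
  have hv : 0 < 5 + 3 * u := by linarith
  have habs : |u| ≤ 11 / 20 := by
    rw [abs_le]; constructor <;> linarith
  have h0 : 0 ≤ |u| := abs_nonneg u
  refine ⟨?_, v_ne hv, ?_, ?_, ?_⟩
  · intro h0
    rw [h0, norm_zero] at hx
    norm_num at hx
  · refine norm_qq_lt (by norm_num) hx hv ?_
    have h1 : (50 + 75 * |u|) ^ 3 ≤ (50 + 75 * (11 / 20)) ^ 3 := by gcongr
    have h2 : (47 / 10 : ℝ) ^ 3 ≤ (5 + 3 * u) ^ 3 := by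
      apply pow_le_pow_left₀ (by norm_num)
      linarith
    nlinarith [h1, h2]
  · apply d1_ne
    rw [hx, abs_lt]
    constructor <;> nlinarith [mul_self_nonneg u, mul_self_nonneg (u - 1), abs_le.1 habs]
  · apply d2_ne
    rw [hx]
    apply ne_of_gt
    rw [abs_mul, abs_of_nonneg (sq_nonneg (2 * u + 1))]
    have h3 : 50 * (|u| * (2 * u + 1) ^ 2) < 52 * u ^ 3 - 525 * u + 500 := by
      rcases le_total 0 u with h4 | h4
      · rw [abs_of_nonneg h4]
        nlinarith [mul_nonneg h4 h4, mul_nonneg h4 (mul_nonneg h4 h4),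
          mul_nonneg h4 (sub_nonneg.2 hb.le), mul_nonneg (mul_nonneg h4 h4) (sub_nonneg.2 hb.le)]
      · rw [abs_of_nonpos h4]
        nlinarith [mul_nonneg_of_nonpos_of_nonpos h4 h4, mul_self_nonneg (u * (u + 1 / 10)),
          mul_nonneg (mul_nonneg_of_nonpos_of_nonpos h4 h4) (by linarith : (0:ℝ) ≤ u + 1 / 10)]
    exact lt_of_lt_of_le h3 (le_abs_self _)

lemma adm200 {x : ℂ} (hx : ‖x‖ = 200) {u : ℝ} (h : u ∈ Ioo (9 / 20 : ℝ) (11 / 10)) :
    Adm x u := by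
  obtain ⟨ha, hb⟩ := h
  have hv : 0 < 5 + 3 * u := by linarith
  have hu : 0 < u := by linarith
  have habs : |u| ≤ 11 / 10 := by
    rw [abs_le]; constructor <;> linarith
  refine ⟨?_, v_ne hv, ?_, ?_, ?_⟩
  · intro h0
    rw [h0, norm_zero] at hx
    norm_num at hx
  · refine norm_qq_lt (by norm_num) hx hv ?_
    have h1 : (200 + 75 * |u|) ^ 3 ≤ (200 + 75 * (11 / 10)) ^ 3 := by gcongr
    have h2 : (5 : ℝ) ^ 3 ≤ (5 + 3 * u) ^ 3 := by
      apply pow_le_pow_left₀ (by norm_num)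
      linarith
    nlinarith [h1, h2]
  · apply d1_ne
    rw [hx, abs_lt]
    constructor <;> nlinarith [mul_self_nonneg u, mul_self_nonneg (u - 1), abs_le.1 habs]
  · apply d2_ne
    rw [hx]
    apply ne_of_lt
    rw [abs_of_nonneg (by positivity : (0:ℝ) ≤ u * (2 * u + 1) ^ 2), abs_lt]
    constructor
    · nlinarith [mul_pos hu hu, mul_pos hu (mul_pos hu hu), mul_self_nonneg (u - 9 / 20),
        mul_pos hu (sub_pos.2 ha)]
    · nlinarith [mul_pos hu hu, mul_pos hu (mul_pos hu hu), mul_self_nonneg (u - 9 / 20),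
        mul_pos hu (sub_pos.2 ha), mul_pos (mul_pos hu hu) (sub_pos.2 ha)]

/-! ### continuity -/

lemma cont_cc : Continuous (fun p : ℂ × ℂ => cc p.1 p.2) := by unfold cc; fun_prop
lemma cont_ccu : Continuous (fun p : ℂ × ℂ => ccu p.1 p.2) := by unfold ccu; fun_prop
lemma cont_d1 : Continuous (fun p : ℂ × ℂ => d1 p.1 p.2) := by unfold d1; fun_prop
lemma cont_d2 : Continuous (fun p : ℂ × ℂ => d2 p.1 p.2) := by unfold d2; fun_prop
lemma cont_QQ : Continuous (fun p : ℂ × ℂ => QQ p.1 p.2) := by unfold QQ; fun_prop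
lemma cont_QQu : Continuous (fun p : ℂ × ℂ => QQu p.1 p.2) := by unfold QQu; fun_prop
lemma cont_d2u : Continuous (fun p : ℂ × ℂ => d2u p.1 p.2) := by unfold d2u; fun_prop

lemma contAt_ee {p : ℂ × ℂ} (hx : p.1 ≠ 0) (hv : 5 + 3 * p.2 ≠ 0) (hq : ‖qq p.1 p.2‖ < 1) :
    ContinuousAt (fun p : ℂ × ℂ => ee p.1 p.2) p := by
  have h1 : ContinuousAt (fun p : ℂ × ℂ => qq p.1 p.2) p := by
    unfold qq
    refine ContinuousAt.div (by fun_prop) (by fun_prop) ?_
    simp [hx, hv]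
  unfold ee
  refine ContinuousAt.mul (continuousAt_fst.inv₀ hx) ?_
  exact (continuousAt_const.add h1).cpow continuousAt_const (mem_slit hq)

lemma contAt_Th {p : ℂ × ℂ} (h : Adm p.1 p.2) :
    ContinuousAt (fun p : ℂ × ℂ => Th p.1 p.2) p := by
  unfold Th
  refine ContinuousAt.add ?_ ?_
  · refine ContinuousAt.div cont_QQ.continuousAt ?_ ?_
    · exact ContinuousAt.mul (by fun_prop) cont_d2.continuousAt
    · exact mul_ne_zero h.hv h.h2
  · exact ContinuousAt.div (by fun_prop) cont_d1.continuousAt h.h1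

lemma contAt_Thu {p : ℂ × ℂ} (h : Adm p.1 p.2) :
    ContinuousAt (fun p : ℂ × ℂ => Thu p.1 p.2) p := by
  unfold Thu
  have := cont_QQ.continuousAt (x := p)
  have := cont_QQu.continuousAt (x := p)
  have := cont_d2.continuousAt (x := p)
  have := cont_d2u.continuousAt (x := p)
  have := cont_d1.continuousAt (x := p)
  refine ContinuousAt.add ?_ ?_
  · refine ContinuousAt.div (by fun_prop) (by fun_prop) ?_
    exact pow_ne_zero _ (mul_ne_zero h.hv h.h2)
  · exact ContinuousAt.div (by fun_prop) (by fun_prop) (pow_ne_zero _ h.h1)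

/-- derivative kernel of `Θ E` -/
noncomputable def FA' (x u : ℂ) : ℂ :=
  (Thu x u + Th x u * (9 / (2 * (5 + 3 * u)) - ccu x u / (2 * cc x u))) * ee x u

/-- derivative kernel of `5 E / (5+3u)` -/
noncomputable def FP' (x u : ℂ) : ℂ :=
  5 / (5 + 3 * u) * (3 / (2 * (5 + 3 * u)) - ccu x u / (2 * cc x u)) * ee x u

lemma contAt_FA' {p : ℂ × ℂ} (h : Adm p.1 p.2) :
    ContinuousAt (fun p : ℂ × ℂ => FA' p.1 p.2) p := by
  unfold FA'
  have hv := h.hv
  have hc := cc_ne_zero h.hx h.hv h.hq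
  have h1 : ContinuousAt (fun p : ℂ × ℂ => 9 / (2 * (5 + 3 * p.2))) p :=
    ContinuousAt.div (by fun_prop) (by fun_prop) (by simp [hv])
  have h2 : ContinuousAt (fun p : ℂ × ℂ => ccu p.1 p.2 / (2 * cc p.1 p.2)) p :=
    ContinuousAt.div cont_ccu.continuousAt (continuousAt_const.mul cont_cc.continuousAt)
      (by simp [hc])
  exact ((contAt_Thu h).add ((contAt_Th h).mul (h1.sub h2))).mul (contAt_ee h.hx h.hv h.hq)

lemma contAt_FP' {p : ℂ × ℂ} (hx : p.1 ≠ 0) (hv : 5 + 3 * p.2 ≠ 0) (hq : ‖qq p.1 p.2‖ < 1) :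
    ContinuousAt (fun p : ℂ × ℂ => FP' p.1 p.2) p := by
  unfold FP'
  have hc := cc_ne_zero hx hv hq
  have h0 : ContinuousAt (fun p : ℂ × ℂ => 5 / (5 + 3 * p.2)) p :=
    ContinuousAt.div (by fun_prop) (by fun_prop) hv
  have h1 : ContinuousAt (fun p : ℂ × ℂ => 3 / (2 * (5 + 3 * p.2))) p :=
    ContinuousAt.div (by fun_prop) (by fun_prop) (by simp [hv])
  have h2 : ContinuousAt (fun p : ℂ × ℂ => ccu p.1 p.2 / (2 * cc p.1 p.2)) p :=
    ContinuousAt.div cont_ccu.continuousAt (continuousAt_const.mul cont_cc.continuousAt)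
      (by simp [hc])
  exact (h0.mul (h1.sub h2)).mul (contAt_ee hx hv hq)

lemma comp2 (G : ℂ → ℂ → ℂ) {x : ℂ} {u : ℝ}
    (h : ContinuousAt (fun p : ℂ × ℂ => G p.1 p.2) (x, (u : ℂ))) :
    ContinuousAt (fun x : ℂ => G x u) x :=
  ContinuousAt.comp (f := fun x : ℂ => (x, (u : ℂ))) (x := x) h (by fun_prop)

lemma comp2' (G : ℂ → ℂ → ℂ) {p : ℂ × ℝ}
    (h : ContinuousAt (fun p : ℂ × ℂ => G p.1 p.2) (p.1, (p.2 : ℂ))) :
    ContinuousAt (fun p : ℂ × ℝ => G p.1 p.2) p :=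
  ContinuousAt.comp (f := fun p : ℂ × ℝ => (p.1, (p.2 : ℂ))) (x := p) h (by fun_prop)

lemma contAt_The {x : ℂ} {u : ℝ} (h : Adm x u) :
    ContinuousAt (fun x : ℂ => Th x u * ee x u) x :=
  (comp2 Th (contAt_Th (p := (x, (u : ℂ))) h)).mul
    (comp2 ee (contAt_ee (p := (x, (u : ℂ))) h.hx h.hv h.hq))

lemma contAt_vee {x : ℂ} {u : ℝ} (h : Adm x u) :
    ContinuousAt (fun x : ℂ => 5 / (5 + 3 * (u : ℂ)) * ee x u) x :=
  continuousAt_const.mul (comp2 ee (contAt_ee (p := (x, (u : ℂ))) h.hx h.hv h.hq))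

/-- the two circle integrals -/
noncomputable def AA (R : ℝ) (u : ℝ) : ℂ := ∮ x in C(0, R), Th x u * ee x u

noncomputable def AA' (R : ℝ) (u : ℝ) : ℂ := ∮ x in C(0, R), FA' x u

noncomputable def PP (R : ℝ) (u : ℝ) : ℂ := ∮ x in C(0, R), 5 / (5 + 3 * (u : ℂ)) * ee x u

noncomputable def PP' (R : ℝ) (u : ℝ) : ℂ := ∮ x in C(0, R), FP' x u

section

variable {R a b : ℝ} (hR : 0 < R)
  (hadm : ∀ x : ℂ, ‖x‖ = R → ∀ u : ℝ, u ∈ Ioo a b → Adm x u)

include hR hadm

lemma hasDerivAt_AA {u : ℝ} (hu : u ∈ Ioo a b) : HasDerivAt (AA R) (AA' R u) u := by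
  have hs : ∀ x ∈ sphere (0 : ℂ) R, ‖x‖ = R := fun x hx => by simpa using hx
  unfold AA AA'
  refine hasDerivAt_circleIntegral_param (F := fun x (u : ℝ) => Th x u * ee x u)
    (F' := fun x (u : ℝ) => FA' x u) hR ?_ ?_ ?_ hu
  · intro x hx u hu
    exact (hasDerivAt_Th_ee (hadm x (hs x hx) u hu)).comp_ofReal
  · intro p hp
    exact (comp2' FA' (contAt_FA' (hadm p.1 (hs _ hp.1) p.2 hp.2))).continuousWithinAt
  · intro u hu x hx
    exact (contAt_The (hadm x (hs x hx) u hu)).continuousWithinAt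

lemma hasDerivAt_PP {u : ℝ} (hu : u ∈ Ioo a b) : HasDerivAt (PP R) (PP' R u) u := by
  have hs : ∀ x ∈ sphere (0 : ℂ) R, ‖x‖ = R := fun x hx => by simpa using hx
  unfold PP PP'
  refine hasDerivAt_circleIntegral_param (F := fun x (u : ℝ) => 5 / (5 + 3 * (u : ℂ)) * ee x u)
    (F' := fun x (u : ℝ) => FP' x u) hR ?_ ?_ ?_ hu
  · intro x hx u hu
    have h := hadm x (hs x hx) u hu
    exact (hasDerivAt_v_ee h.hx h.hv h.hq).comp_ofReal
  · intro p hp
    have h := hadm p.1 (hs _ hp.1) p.2 hp.2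
    exact (comp2' FP' (contAt_FP' h.hx h.hv h.hq)).continuousWithinAt
  · intro u hu x hx
    exact (contAt_vee (hadm x (hs x hx) u hu)).continuousWithinAt

/-- the integrated identity -/
lemma key_integral {u : ℝ} (hu : u ∈ Ioo a b) :
    (u : ℂ) * (1 - u) * AA' R u + (1 / 2 - u) * AA R u
      = 357 * u * PP' R u + 103 * PP R u := by
  have hs : ∀ x ∈ sphere (0 : ℂ) R, ‖x‖ = R := fun x hx => by simpa using hx
  have hzero : (∮ x in C(0, R),
      (bbx x u - bb x u * (ccx x u / (2 * cc x u))) * ee x u) = 0 := by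
    refine circleIntegral.integral_eq_zero_of_hasDerivWithinAt hR.le (f := fun x => bb x u * ee x u)
      fun x hx => ?_
    exact (hasDerivAt_bb_ee (hadm x (hs x hx) u hu)).hasDerivWithinAt
  have cTh : ContinuousOn (fun x : ℂ => Th x u * ee x u) (sphere 0 R) := fun x hx =>
    (contAt_The (hadm x (hs x hx) u hu)).continuousWithinAt
  have cFA : ContinuousOn (fun x : ℂ => FA' x u) (sphere 0 R) := fun x hx =>
    (comp2 FA' (contAt_FA' (hadm x (hs x hx) u hu))).continuousWithinAt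
  have cFP : ContinuousOn (fun x : ℂ => FP' x u) (sphere 0 R) := fun x hx =>
    (comp2 FP' (contAt_FP' (hadm x (hs x hx) u hu).hx (hadm x (hs x hx) u hu).hv
      (hadm x (hs x hx) u hu).hq)).continuousWithinAt
  have cee : ContinuousOn (fun x : ℂ => 5 / (5 + 3 * (u : ℂ)) * ee x u) (sphere 0 R) :=
    fun x hx => (contAt_vee (hadm x (hs x hx) u hu)).continuousWithinAt
  have i1 : CircleIntegrable (fun x : ℂ => (u : ℂ) * (1 - u) * FA' x u) 0 R :=
    (continuousOn_const.mul cFA).circleIntegrable hR.le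
  have i2 : CircleIntegrable (fun x : ℂ => (1 / 2 - (u : ℂ)) * (Th x u * ee x u)) 0 R :=
    (continuousOn_const.mul cTh).circleIntegrable hR.le
  have i3 : CircleIntegrable (fun x : ℂ => 357 * (u : ℂ) * FP' x u) 0 R :=
    (continuousOn_const.mul cFP).circleIntegrable hR.le
  have i4 : CircleIntegrable (fun x : ℂ => 103 * (5 / (5 + 3 * (u : ℂ)) * ee x u)) 0 R :=
    (continuousOn_const.mul cee).circleIntegrable hR.le
  have hfun : ∀ x ∈ sphere (0 : ℂ) R,
      (bbx x u - bb x u * (ccx x u / (2 * cc x u))) * ee x u =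
      ((u : ℂ) * (1 - u) * FA' x u + (1 / 2 - (u : ℂ)) * (Th x u * ee x u)) -
        (357 * (u : ℂ) * FP' x u + 103 * (5 / (5 + 3 * (u : ℂ)) * ee x u)) := by
    intro x hx
    have h := key_ee (hadm x (hs x hx) u hu)
    unfold FA' FP'
    rw [h]
    ring
  rw [circleIntegral.integral_congr hR.le hfun] at hzero
  have i12 : CircleIntegrable (fun x : ℂ => (u : ℂ) * (1 - u) * FA' x u +
      (1 / 2 - (u : ℂ)) * (Th x u * ee x u)) 0 R := i1.add i2
  have i34 : CircleIntegrable (fun x : ℂ => 357 * (u : ℂ) * FP' x u +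
      103 * (5 / (5 + 3 * (u : ℂ)) * ee x u)) 0 R := i3.add i4
  rw [circleIntegral.integral_sub i12 i34] at hzero
  have e1 : (∮ x in C(0, R), ((u : ℂ) * (1 - u) * FA' x u +
      (1 / 2 - (u : ℂ)) * (Th x u * ee x u))) =
      (u : ℂ) * (1 - u) * AA' R u + (1 / 2 - u) * AA R u := by
    rw [circleIntegral.integral_add i1 i2, circleIntegral.integral_const_mul,
      circleIntegral.integral_const_mul]
    rfl
  have e2 : (∮ x in C(0, R), (357 * (u : ℂ) * FP' x u +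
      103 * (5 / (5 + 3 * (u : ℂ)) * ee x u))) = 357 * u * PP' R u + 103 * PP R u := by
    rw [circleIntegral.integral_add i3 i4, circleIntegral.integral_const_mul,
      circleIntegral.integral_const_mul]
    rfl
  have hzero' := sub_eq_zero.1 hzero
  rw [← e1, ← e2]
  exact hzero'

end

end Pool.Agent.R90
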