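import Mathlib

/-!
# The algebraic certificate

`C(x,u) = 81 x^2 (5+3u)^3 + (x-75u)^3`, `E(x,u) = x^{-1} (1+q)^{-1/2}`,
`q = (x-75u)^3/(81 x^2 (5+3u)^3)`.
-/

namespace Pool.Agent.R90

open Complex

/-- the cubic -/
noncomputable def cc (x u : ℂ) : ℂ := 81 * x ^ 2 * (5 + 3 * u) ^ 3 + (x - 75 * u) ^ 3

noncomputable def ccu (x u : ℂ) : ℂ := 729 * x ^ 2 * (5 + 3 * u) ^ 2 - 225 * (x - 75 * u) ^ 2

noncomputable def ccx (x u : ℂ) : ℂ := 162 * x * (5 + 3 * u) ^ 3 + 3 * (x - 75 * u) ^ 2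

noncomputable def d1 (x u : ℂ) : ℂ := x - 3 * u ^ 2 * (6 * u - 5)

noncomputable def d2 (x u : ℂ) : ℂ := 52 * u ^ 3 - 525 * u + 500 - x * u * (2 * u + 1) ^ 2

noncomputable def QQ (x u : ℂ) : ℂ :=
  10 * (3076 * u ^ 3 - 7500 * u ^ 2 - 34575 * u + 51500 -
    x * (2 * u + 1) * (98 * u ^ 2 + 5 * u - 10))

noncomputable def QQu (x u : ℂ) : ℂ :=
  10 * (9228 * u ^ 2 - 15000 * u - 34575 -
    x * (2 * (98 * u ^ 2 + 5 * u - 10) + (2 * u + 1) * (196 * u + 5)))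

noncomputable def d2u (x u : ℂ) : ℂ :=
  156 * u ^ 2 - 525 - x * ((2 * u + 1) ^ 2 + 4 * u * (2 * u + 1))

/-- the kernel `Θ` -/
noncomputable def Th (x u : ℂ) : ℂ :=
  QQ x u / ((5 + 3 * u) * d2 x u) + 210 * u * (14 * u - 5) / d1 x u

noncomputable def Thu (x u : ℂ) : ℂ :=
  (QQu x u * ((5 + 3 * u) * d2 x u) - QQ x u * (3 * d2 x u + (5 + 3 * u) * d2u x u)) /
      ((5 + 3 * u) * d2 x u) ^ 2 +
    (210 * (28 * u - 5) * d1 x u - 210 * u * (14 * u - 5) * (-(54 * u ^ 2 - 30 * u))) /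
      (d1 x u) ^ 2

noncomputable def BB (x u : ℂ) : ℂ :=
  3 * (-32812500 * u ^ 3 + 27421875 * u ^ 4 + 22500000 * u ^ 5 - 34912500 * u ^ 6
    + 17550000 * u ^ 7)
  + 3 * (6562500 * u - 12671875 * u ^ 2 + 5268750 * u ^ 3 - 551250 * u ^ 4 - 170000 * u ^ 5
    + 1534200 * u ^ 6 - 237600 * u ^ 7) * x
  + (5062500 + 2120000 * u - 5207250 * u ^ 2 - 2055000 * u ^ 3 + 1174405 * u ^ 4
    + 456360 * u ^ 5 - 488700 * u ^ 6 - 278640 * u ^ 7) * x ^ 2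
  + (500 - 1900 * u - 15545 * u ^ 2 - 53470 * u ^ 3 - 56620 * u ^ 4 - 17640 * u ^ 5) * x ^ 3

noncomputable def BBx (x u : ℂ) : ℂ :=
  3 * (6562500 * u - 12671875 * u ^ 2 + 5268750 * u ^ 3 - 551250 * u ^ 4 - 170000 * u ^ 5
    + 1534200 * u ^ 6 - 237600 * u ^ 7)
  + (5062500 + 2120000 * u - 5207250 * u ^ 2 - 2055000 * u ^ 3 + 1174405 * u ^ 4
    + 456360 * u ^ 5 - 488700 * u ^ 6 - 278640 * u ^ 7) * (2 * x)
  + (500 - 1900 * u - 15545 * u ^ 2 - 53470 * u ^ 3 - 56620 * u ^ 4 - 17640 * u ^ 5) *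
    (3 * x ^ 2)

/-- the certificate -/
noncomputable def bb (x u : ℂ) : ℂ := BB x u / ((5 + 3 * u) ^ 2 * (d1 x u * d2 x u))

noncomputable def bbx (x u : ℂ) : ℂ :=
  (BBx x u * (d1 x u * d2 x u) - BB x u * (d2 x u + d1 x u * (-(u * (2 * u + 1) ^ 2)))) /
    ((5 + 3 * u) ^ 2 * (d1 x u * d2 x u) ^ 2)

/-- Clearing denominators, with all polynomials as atoms. -/
theorem clear_denominators (u v D1 D2 c Q Qu e2 e1 B Bx m k cu cx : ℂ) (hv : v ≠ 0)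
    (h1 : D1 ≠ 0) (h2 : D2 ≠ 0) (hc : c ≠ 0)
    (H : u * (1 - u) * (2 * c * D1 ^ 2 * (Qu * (v * D2) - Q * (3 * D2 + v * e2))
          + 2 * c * v ^ 2 * D2 ^ 2 * (m * D1 - k * e1)
          + (Q * D1 + k * v * D2) * (D1 * D2) * (9 * c - v * cu))
        + (1 - 2 * u) * (Q * D1 + k * v * D2) * (c * v * D1 * D2)
      = 1785 * u * (3 * c - v * cu) * (D1 * D2) ^ 2 + 1030 * c * v * (D1 * D2) ^ 2
        + 2 * c * (Bx * (D1 * D2) - B * (D2 + D1 * (-(u * (2 * u + 1) ^ 2))))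
        - B * cx * (D1 * D2)) :
    u * (1 - u) * (((Qu * (v * D2) - Q * (3 * D2 + v * e2)) / (v * D2) ^ 2
          + (m * D1 - k * e1) / D1 ^ 2)
          + (Q / (v * D2) + k / D1) * (9 / (2 * v) - cu / (2 * c)))
        + (1 / 2 - u) * (Q / (v * D2) + k / D1)
      = 357 * u * (5 / v) * (3 / (2 * v) - cu / (2 * c)) + 515 / v
        + ((Bx * (D1 * D2) - B * (D2 + D1 * (-(u * (2 * u + 1) ^ 2)))) / (v ^ 2 * (D1 * D2) ^ 2)
          - B / (v ^ 2 * (D1 * D2)) * (cx / (2 * c))) := by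
  have hne : 2 * c * v ^ 2 * (D1 * D2) ^ 2 ≠ 0 := by
    simp [hc, hv, h1, h2]
  apply mul_left_cancel₀ hne
  have e1' : 2 * c * v ^ 2 * (D1 * D2) ^ 2 *
      (u * (1 - u) * (((Qu * (v * D2) - Q * (3 * D2 + v * e2)) / (v * D2) ^ 2
          + (m * D1 - k * e1) / D1 ^ 2)
          + (Q / (v * D2) + k / D1) * (9 / (2 * v) - cu / (2 * c)))
        + (1 / 2 - u) * (Q / (v * D2) + k / D1))
      = u * (1 - u) * (2 * c * D1 ^ 2 * (Qu * (v * D2) - Q * (3 * D2 + v * e2))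
          + 2 * c * v ^ 2 * D2 ^ 2 * (m * D1 - k * e1)
          + (Q * D1 + k * v * D2) * (D1 * D2) * (9 * c - v * cu))
        + (1 - 2 * u) * (Q * D1 + k * v * D2) * (c * v * D1 * D2) := by
    field_simp
  have e2' : 2 * c * v ^ 2 * (D1 * D2) ^ 2 *
      (357 * u * (5 / v) * (3 / (2 * v) - cu / (2 * c)) + 515 / v
        + ((Bx * (D1 * D2) - B * (D2 + D1 * (-(u * (2 * u + 1) ^ 2)))) / (v ^ 2 * (D1 * D2) ^ 2)
          - B / (v ^ 2 * (D1 * D2)) * (cx / (2 * c))))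
      = 1785 * u * (3 * c - v * cu) * (D1 * D2) ^ 2 + 1030 * c * v * (D1 * D2) ^ 2
        + 2 * c * (Bx * (D1 * D2) - B * (D2 + D1 * (-(u * (2 * u + 1) ^ 2))))
        - B * cx * (D1 * D2) := by
    field_simp
    ring
  rw [e1', e2', H]

/-- The algebraic identity behind everything. -/
theorem key_identity (x u : ℂ) (hv : 5 + 3 * u ≠ 0) (h1 : d1 x u ≠ 0) (h2 : d2 x u ≠ 0)
    (hc : cc x u ≠ 0) :
    u * (1 - u) * (Thu x u + Th x u * (9 / (2 * (5 + 3 * u)) - ccu x u / (2 * cc x u)))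
        + (1 / 2 - u) * Th x u
      = 357 * u * (5 / (5 + 3 * u)) * (3 / (2 * (5 + 3 * u)) - ccu x u / (2 * cc x u))
        + 515 / (5 + 3 * u) + (bbx x u - bb x u * (ccx x u / (2 * cc x u))) := by
  unfold Thu Th bbx bb
  apply clear_denominators _ _ _ _ _ _ _ _ _ _ _ _ _ _ _ hv h1 h2 hc
  unfold cc ccu ccx d1 d2 QQ QQu d2u BB BBx
  ring

end Pool.Agent.R90
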