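import Pool.Agent.R90.Calc

/-!
# Differentiation of circle integrals with respect to a real parameter
-/

namespace Pool.Agent.R90

open Complex Metric Set MeasureTheory Filter Topology

theorem hasDerivAt_circleIntegral_param {F F' : ℂ → ℝ → ℂ} {R a b : ℝ} (hR : 0 < R)
    (hF : ∀ x ∈ sphere (0 : ℂ) R, ∀ u ∈ Ioo a b, HasDerivAt (F x) (F' x u) u)
    (hc : ContinuousOn (fun p : ℂ × ℝ => F' p.1 p.2) (sphere (0 : ℂ) R ×ˢ Ioo a b))
    (hcF : ∀ u ∈ Ioo a b, ContinuousOn (fun x => F x u) (sphere (0 : ℂ) R))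
    {u₀ : ℝ} (hu₀ : u₀ ∈ Ioo a b) :
    HasDerivAt (fun u => ∮ x in C(0, R), F x u) (∮ x in C(0, R), F' x u₀) u₀ := by
  obtain ⟨ε, hε, hball⟩ : ∃ ε > 0, closedBall u₀ ε ⊆ Ioo a b := by
    obtain ⟨ε, hε, h⟩ := Metric.isOpen_iff.1 isOpen_Ioo u₀ hu₀
    refine ⟨ε / 2, by positivity, ?_⟩
    exact (closedBall_subset_ball (by linarith)).trans h
  have hK : IsCompact (sphere (0 : ℂ) R ×ˢ closedBall u₀ ε) :=
    (isCompact_sphere _ _).prod (isCompact_closedBall _ _)
  obtain ⟨M, hM⟩ := hK.exists_bound_of_continuousOn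
    (hc.mono (prod_mono_right hball))
  have hcirc : ∀ θ : ℝ, circleMap 0 R θ ∈ sphere (0 : ℂ) R := fun θ =>
    circleMap_mem_sphere _ hR.le _
  have hccont : Continuous (circleMap (0 : ℂ) R) := continuous_circleMap _ _
  have hdc : Continuous (deriv (circleMap (0 : ℂ) R)) := by
    have : deriv (circleMap (0 : ℂ) R) = fun θ => circleMap 0 R θ * I := by
      ext θ
      exact deriv_circleMap 0 R θ
    rw [this]
    exact hccont.mul continuous_const
  have hFc : ∀ u ∈ Ioo a b, Continuous (fun θ => deriv (circleMap 0 R) θ • F (circleMap 0 R θ) u) :=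
    fun u hu => hdc.smul ((hcF u hu).comp_continuous hccont hcirc)
  have hF'c : ∀ u ∈ Ioo a b,
      Continuous (fun θ => deriv (circleMap 0 R) θ • F' (circleMap 0 R θ) u) := by
    intro u hu
    refine hdc.smul ?_
    exact hc.comp_continuous (f := fun θ : ℝ => ((circleMap 0 R θ, u) : ℂ × ℝ))
      (hccont.prodMk continuous_const) (fun θ => ⟨hcirc θ, hu⟩)
  unfold circleIntegral
  refine (intervalIntegral.hasDerivAt_integral_of_dominated_loc_of_deriv_le
    (F := fun u θ => deriv (circleMap 0 R) θ • F (circleMap 0 R θ) u)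
    (F' := fun u θ => deriv (circleMap 0 R) θ • F' (circleMap 0 R θ) u)
    (bound := fun _ => R * M) (closedBall_mem_nhds u₀ hε) ?_ ?_ ?_ ?_ ?_ ?_).2
  · filter_upwards [Ioo_mem_nhds hu₀.1 hu₀.2] with u hu
    exact (hFc u hu).aestronglyMeasurable
  · exact (hFc u₀ hu₀).intervalIntegrable _ _
  · exact (hF'c u₀ hu₀).aestronglyMeasurable
  · refine Eventually.of_forall fun θ _ u hu => ?_
    rw [norm_smul, deriv_circleMap, norm_mul, norm_circleMap_zero, norm_I, mul_one, abs_of_pos hR]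
    have := hM (circleMap 0 R θ, u) ⟨hcirc θ, hu⟩
    exact mul_le_mul_of_nonneg_left this hR.le
  · exact intervalIntegrable_const
  · refine Eventually.of_forall fun θ _ u hu => ?_
    have h1 := (hF _ (hcirc θ) u (hball hu)).const_mul (deriv (circleMap 0 R) θ)
    simpa only [smul_eq_mul] using h1

end Pool.Agent.R90
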