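import Pool.Agent.R90.Geom

/-!
# The period `PP` as a series
-/

namespace Pool.Agent.R90

open Complex Metric Set MeasureTheory Filter Topology

lemma choose_neg_half_succ (k : ℕ) :
    ((k : ℂ) + 1) * Ring.choose (-1 / 2 : ℂ) (k + 1) =
      (-1 / 2 - k) * Ring.choose (-1 / 2 : ℂ) k := by
  have h1 := Ring.descPochhammer_eq_factorial_smul_choose (-1 / 2 : ℂ) (k + 1)
  have h2 := Ring.descPochhammer_eq_factorial_smul_choose (-1 / 2 : ℂ) k
  rw [descPochhammer_succ_right, Polynomial.smeval_mul, h2] at h1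
  simp only [Polynomial.smeval_sub, Polynomial.smeval_X, Polynomial.smeval_natCast, pow_one,
    pow_zero, nsmul_eq_mul, mul_one] at h1
  rw [Nat.factorial_succ] at h1
  push_cast at h1
  have h3 : ((k.factorial : ℕ) : ℂ) ≠ 0 := by exact_mod_cast k.factorial_ne_zero
  apply mul_left_cancel₀ h3
  linear_combination -h1

lemma choose_neg_half (k : ℕ) :
    Ring.choose (-1 / 2 : ℂ) k = (-1 / 4) ^ k * (k.centralBinom : ℂ) := by
  induction k with
  | zero => simp
  | succ k ih =>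
    have h1 := choose_neg_half_succ k
    rw [ih] at h1
    have h2 : ((k : ℂ) + 1) * ((k + 1).centralBinom : ℂ) = 2 * (2 * k + 1) * k.centralBinom := by
      exact_mod_cast Nat.succ_mul_centralBinom_succ k
    have h3 : (k : ℂ) + 1 ≠ 0 := by exact_mod_cast Nat.succ_ne_zero k
    apply mul_left_cancel₀ h3
    rw [h1, pow_succ]
    linear_combination -(-1 / 4) ^ k * (-1 / 4) * h2

lemma hasSum_half {q : ℂ} (hq : ‖q‖ < 1) :
    HasSum (fun k : ℕ => (-1 / 4) ^ k * (k.centralBinom : ℂ) * q ^ k)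
      ((1 + q) ^ (-1 / 2 : ℂ)) := by
  have h1 := (one_add_cpow_hasFPowerSeriesOnBall_zero (a := (-1 / 2 : ℂ))).hasSum (y := q)
    (by
      rw [← ENNReal.ofReal_one, Metric.eball_ofReal]
      simpa using hq)
  rw [zero_add] at h1
  refine h1.congr_fun ?_
  intro k
  rw [binomialSeries_apply, choose_neg_half]
  simp

lemma hasSum_circleIntegral {f : ℕ → ℂ → ℂ} {F : ℂ → ℂ} {B : ℕ → ℝ} {R : ℝ} (hR : 0 < R)
    (hc : ∀ k, ContinuousOn (f k) (sphere (0 : ℂ) R))
    (hB : ∀ k, ∀ x ∈ sphere (0 : ℂ) R, ‖f k x‖ ≤ B k) (hs : Summable B)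
    (hf : ∀ x ∈ sphere (0 : ℂ) R, HasSum (fun k => f k x) (F x)) :
    HasSum (fun k => ∮ x in C(0, R), f k x) (∮ x in C(0, R), F x) := by
  have hcirc : ∀ θ : ℝ, circleMap 0 R θ ∈ sphere (0 : ℂ) R := fun θ =>
    circleMap_mem_sphere _ hR.le _
  have hccont : Continuous (circleMap (0 : ℂ) R) := continuous_circleMap _ _
  have hdc : Continuous (deriv (circleMap (0 : ℂ) R)) := by
    have : deriv (circleMap (0 : ℂ) R) = fun θ => circleMap 0 R θ * I := by
      ext θ
      exact deriv_circleMap 0 R θ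
    rw [this]
    exact hccont.mul continuous_const
  unfold circleIntegral
  refine intervalIntegral.hasSum_integral_of_dominated_convergence (fun k _ => R * B k) ?_ ?_ ?_
    ?_ ?_
  · intro k
    exact (hdc.smul ((hc k).comp_continuous hccont hcirc)).aestronglyMeasurable
  · intro k
    refine Eventually.of_forall fun θ _ => ?_
    rw [norm_smul, deriv_circleMap, norm_mul, norm_circleMap_zero, norm_I, mul_one, abs_of_pos hR]
    exact mul_le_mul_of_nonneg_left (hB k _ (hcirc θ)) hR.le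
  · exact Eventually.of_forall fun θ _ => hs.mul_left R
  · exact intervalIntegrable_const
  · refine Eventually.of_forall fun θ _ => ?_
    have := (hf _ (hcirc θ)).mul_left (deriv (circleMap 0 R) θ)
    simpa only [smul_eq_mul] using this

lemma integral_monomial {R : ℝ} (hR : 0 < R) (j k : ℕ) :
    (∮ x in C(0, R), (x ^ j * (x ^ (2 * k + 1))⁻¹ : ℂ)) = if j = 2 * k then 2 * Real.pi * I else 0 := by
  have h1 : ∀ x ∈ sphere (0 : ℂ) R, x ^ j * (x ^ (2 * k + 1))⁻¹ =
      (x - 0) ^ ((j : ℤ) - (2 * k + 1)) := by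
    intro x hx
    have hx0 : x ≠ 0 := by
      intro h
      rw [h] at hx
      simp at hx
      linarith
    rw [sub_zero, zpow_sub₀ hx0, div_eq_mul_inv]
    norm_cast
  rw [circleIntegral.integral_congr hR.le h1]
  split_ifs with h
  · have h2 : ((j : ℤ) - (2 * k + 1)) = -1 := by
      rw [h]; push_cast; ring
    rw [h2]
    simp only [zpow_neg_one]
    exact circleIntegral.integral_sub_center_inv 0 hR.ne'
  · apply circleIntegral.integral_sub_zpow_of_ne
    intro h2
    apply h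
    omega

lemma circleIntegral_finset_sum {ι : Type*} (s : Finset ι) {f : ι → ℂ → ℂ} {R : ℝ}
    (h : ∀ i ∈ s, CircleIntegrable (f i) 0 R) :
    (∮ x in C(0, R), ∑ i ∈ s, f i x) = ∑ i ∈ s, ∮ x in C(0, R), f i x := by
  classical
  unfold circleIntegral
  rw [← intervalIntegral.integral_finsetSum]
  · refine intervalIntegral.integral_congr fun θ _ => ?_
    simp only [smul_eq_mul, Finset.mul_sum]
  · intro i hi
    exact (h i hi).out

lemma integral_qq_pow {R : ℝ} (hR : 0 < R) (u : ℂ) (k : ℕ) :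
    (∮ x in C(0, R), (x⁻¹ * qq x u ^ k : ℂ)) =
      2 * Real.pi * I * (((3 * k).choose k : ℂ) * (-75 * u) ^ k / (81 * (5 + 3 * u) ^ 3) ^ k) := by
  have h1 : ∀ x ∈ sphere (0 : ℂ) R, x⁻¹ * qq x u ^ k =
      ∑ j ∈ Finset.range (3 * k + 1), (((3 * k).choose j : ℂ) * (-75 * u) ^ (3 * k - j) /
        (81 * (5 + 3 * u) ^ 3) ^ k) * (x ^ j * (x ^ (2 * k + 1))⁻¹) := by
    intro x hx
    have hx0 : x ≠ 0 := by
      intro h
      rw [h] at hx
      simp at hx
      linarith
    have e1 : (x - 75 * u) ^ (3 * k) = ∑ j ∈ Finset.range (3 * k + 1),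
        x ^ j * (-75 * u) ^ (3 * k - j) * ((3 * k).choose j : ℂ) := by
      rw [← add_pow]
      ring
    have e2 : x⁻¹ * qq x u ^ k =
        (x - 75 * u) ^ (3 * k) * ((x ^ (2 * k + 1))⁻¹ / (81 * (5 + 3 * u) ^ 3) ^ k) := by
      unfold qq
      rw [div_pow, ← pow_mul]
      have : (81 * x ^ 2 * (5 + 3 * u) ^ 3) ^ k = x ^ (2 * k) * (81 * (5 + 3 * u) ^ 3) ^ k := by
        rw [pow_mul, ← mul_pow]
        ring
      rw [this, pow_succ]
      simp only [div_eq_mul_inv, mul_inv]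
      ring
    rw [e2, e1, Finset.sum_mul]
    refine Finset.sum_congr rfl fun j _ => ?_
    ring
  rw [circleIntegral.integral_congr hR.le h1]
  have hint : ∀ j ∈ Finset.range (3 * k + 1), CircleIntegrable
      (fun x : ℂ => (((3 * k).choose j : ℂ) * (-75 * u) ^ (3 * k - j) /
        (81 * (5 + 3 * u) ^ 3) ^ k) * (x ^ j * (x ^ (2 * k + 1))⁻¹)) 0 R := by
    intro j _
    apply ContinuousOn.circleIntegrable hR.le
    intro x hx
    have hx0 : x ≠ 0 := by
      intro h
      rw [h] at hx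
      simp at hx
      linarith
    apply ContinuousAt.continuousWithinAt
    refine continuousAt_const.mul ((continuousAt_id.pow j).mul ?_)
    exact (continuousAt_id.pow _).inv₀ (pow_ne_zero _ hx0)
  rw [circleIntegral_finset_sum _ hint]
  simp only [circleIntegral.integral_const_mul, integral_monomial hR]
  rw [Finset.sum_eq_single (2 * k)]
  · rw [if_pos rfl]
    have h3 : 3 * k - 2 * k = k := by omega
    have h4 : (3 * k).choose (2 * k) = (3 * k).choose k := by
      rw [← Nat.choose_symm (by omega : k ≤ 3 * k)]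
      congr 1
      omega
    rw [h3, h4]
    ring
  · intro j _ hj
    rw [if_neg hj, mul_zero]
  · intro h
    exfalso
    apply h
    rw [Finset.mem_range]
    omega

/-- the period as a series in `k` -/
theorem hasSum_PP {R : ℝ} (hR : 0 < R) {u : ℝ} (hv : 0 < 5 + 3 * u)
    (h : (R + 75 * |u|) ^ 3 < 81 * R ^ 2 * (5 + 3 * u) ^ 3) :
    HasSum (fun k : ℕ => 2 * Real.pi * I * (5 / (5 + 3 * (u : ℂ)) *
      (((3 * k).choose k : ℂ) * (k.centralBinom : ℂ) *
        (25 * u / (108 * (5 + 3 * u) ^ 3)) ^ k))) (PP R u) := by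
  set q0 : ℝ := (R + 75 * |u|) ^ 3 / (81 * R ^ 2 * (5 + 3 * u) ^ 3) with hq0
  have hpos : 0 < 81 * R ^ 2 * (5 + 3 * u) ^ 3 := by positivity
  have hq1 : q0 < 1 := (div_lt_one hpos).2 h
  have hq0' : 0 ≤ q0 := by positivity
  have hqn : ∀ x ∈ sphere (0 : ℂ) R, ‖qq x u‖ ≤ q0 := by
    intro x hx
    have hx : ‖x‖ = R := by simpa using hx
    unfold qq
    have h1 : ‖x - 75 * (u : ℂ)‖ ≤ R + 75 * |u| := by
      calc ‖x - 75 * (u : ℂ)‖ ≤ ‖x‖ + ‖75 * (u : ℂ)‖ := norm_sub_le _ _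
        _ = R + 75 * |u| := by
          rw [hx, norm_mul, Complex.norm_real, Real.norm_eq_abs]
          norm_num
    have h2 : ‖81 * x ^ 2 * (5 + 3 * (u : ℂ)) ^ 3‖ = 81 * R ^ 2 * (5 + 3 * u) ^ 3 := by
      have : (5 + 3 * (u : ℂ)) = ((5 + 3 * u : ℝ) : ℂ) := by push_cast; ring
      rw [norm_mul, norm_mul, norm_pow, norm_pow, hx, this, Complex.norm_real, Real.norm_eq_abs,
        abs_of_pos hv]
      norm_num
    rw [norm_div, norm_pow, h2, hq0]
    gcongr
  have hvc := v_ne hv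
  have hxne : ∀ x ∈ sphere (0 : ℂ) R, x ≠ 0 := by
    intro x hx h
    rw [h] at hx
    simp at hx
    linarith
  have key := hasSum_circleIntegral (R := R)
    (f := fun k x => 5 / (5 + 3 * (u : ℂ)) * ((-1 / 4) ^ k * (k.centralBinom : ℂ)) *
      (x⁻¹ * qq x u ^ k))
    (F := fun x => 5 / (5 + 3 * (u : ℂ)) * ee x u)
    (B := fun k => 5 / (5 + 3 * u) * R⁻¹ * q0 ^ k) hR ?_ ?_ ?_ ?_
  · unfold PP
    refine key.congr_fun ?_
    intro k
    rw [circleIntegral.integral_const_mul, integral_qq_pow hR]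
    have e : ((25 : ℂ) * u / (108 * (5 + 3 * u) ^ 3)) ^ k =
        (-1 / 4) ^ k * ((-75 * (u : ℂ)) ^ k / (81 * (5 + 3 * (u : ℂ)) ^ 3) ^ k) := by
      rw [← div_pow, ← mul_pow]
      congr 1
      field_simp
      ring
    rw [e]
    ring
  · intro k x hx
    have hx0 := hxne x hx
    apply ContinuousAt.continuousWithinAt
    refine continuousAt_const.mul ((continuousAt_id.inv₀ hx0).mul (ContinuousAt.pow ?_ k))
    unfold qq
    exact ContinuousAt.div (by fun_prop) (by fun_prop) (by simp [hx0, hvc])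
  · intro k x hx
    have hx' : ‖x‖ = R := by simpa using hx
    have h5 : ‖(5 : ℂ) / (5 + 3 * (u : ℂ))‖ = 5 / (5 + 3 * u) := by
      have : (5 + 3 * (u : ℂ)) = ((5 + 3 * u : ℝ) : ℂ) := by push_cast; ring
      rw [norm_div, this, Complex.norm_real, Real.norm_eq_abs, abs_of_pos hv]
      norm_num
    have h6 : ‖(-1 / 4 : ℂ) ^ k * (k.centralBinom : ℂ)‖ ≤ 1 := by
      rw [norm_mul, norm_pow]
      have h7 : ‖(-1 / 4 : ℂ)‖ = 1 / 4 := by
        rw [norm_div, norm_neg]
        norm_num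
      rw [h7]
      have h8 : ‖((k.centralBinom : ℕ) : ℂ)‖ ≤ 4 ^ k := by
        rw [Complex.norm_natCast]
        have h9 : k.centralBinom ≤ 4 ^ k := by
          unfold Nat.centralBinom
          calc (2 * k).choose k ≤ 2 ^ (2 * k) := Nat.choose_le_two_pow _ _
            _ = 4 ^ k := by rw [pow_mul]; norm_num
        exact_mod_cast h9
      calc (1 / 4 : ℝ) ^ k * ‖((k.centralBinom : ℕ) : ℂ)‖ ≤ (1 / 4) ^ k * 4 ^ k := by gcongr
        _ = 1 := by rw [← mul_pow]; norm_num
    have h10 : ‖x⁻¹ * qq x u ^ k‖ = R⁻¹ * ‖qq x u‖ ^ k := by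
      rw [norm_mul, norm_inv, hx', norm_pow]
    rw [norm_mul _ (x⁻¹ * qq x u ^ k), norm_mul (5 / (5 + 3 * (u : ℂ))), h5, h10]
    calc 5 / (5 + 3 * u) * ‖(-1 / 4 : ℂ) ^ k * (k.centralBinom : ℂ)‖ * (R⁻¹ * ‖qq x u‖ ^ k)
        ≤ 5 / (5 + 3 * u) * 1 * (R⁻¹ * q0 ^ k) := by
          have := hqn x hx
          gcongr
      _ = 5 / (5 + 3 * u) * R⁻¹ * q0 ^ k := by ring
  · exact (summable_geometric_of_lt_one hq0' hq1).mul_left _
  · intro x hx
    have h1 := hasSum_half (q := qq x u) (lt_of_le_of_lt (hqn x hx) hq1)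
    have h2 := (h1.mul_left x⁻¹).mul_left (5 / (5 + 3 * (u : ℂ)))
    unfold ee
    refine h2.congr_fun ?_
    intro k
    ring

end Pool.Agent.R90
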