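import Pool.Agent.R90.Series1

/-!
# The coefficients
-/

namespace Pool.Agent.R90

open Metric Set MeasureTheory Filter Topology Finset

/-- the coefficients `P_n / 540^n`, where `f(n) = C(2n,n) P_n` -/
noncomputable def aa (n : ℕ) : ℝ :=
  (∑ k ∈ range (n + 1), (n.choose k : ℝ) * ((n + 2 * k).choose (2 * k) : ℝ) *
    ((2 * k).choose k : ℝ) * (-324) ^ (n - k)) / 540 ^ n

/-- the double sequence -/
noncomputable def tt (y s : ℝ) (k m : ℕ) : ℝ :=
  ((3 * k).choose k : ℝ) * (k.centralBinom : ℝ) * ((m + 3 * k).choose (3 * k) : ℝ) *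
    y ^ k * s ^ m

lemma choose_identity (k m : ℕ) :
    (k + m).choose k * ((k + m) + 2 * k).choose (2 * k) * (2 * k).choose k =
      (3 * k).choose k * k.centralBinom * (m + 3 * k).choose (3 * k) := by
  have h1 : (k + m + 2 * k).choose (3 * k) * (3 * k).choose (2 * k) =
      (k + m + 2 * k).choose (2 * k) * (k + m + 2 * k - 2 * k).choose (3 * k - 2 * k) :=
    Nat.choose_mul (by omega)
  have h2 : k + m + 2 * k - 2 * k = k + m := by omega
  have h3 : 3 * k - 2 * k = k := by omega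
  rw [h2, h3] at h1
  have h4 : (3 * k).choose (2 * k) = (3 * k).choose k := by
    rw [← Nat.choose_symm (by omega : k ≤ 3 * k)]
    congr 1
    omega
  rw [h4] at h1
  have h5 : k + m + 2 * k = m + 3 * k := by ring
  rw [h5] at h1 ⊢
  unfold Nat.centralBinom
  calc (k + m).choose k * (m + 3 * k).choose (2 * k) * (2 * k).choose k
      = ((m + 3 * k).choose (2 * k) * (k + m).choose k) * (2 * k).choose k := by ring
    _ = _ := by rw [← h1]; ring

lemma aa_eq (n : ℕ) :
    aa n = ∑ p ∈ antidiagonal n, tt (1 / 540) (-3 / 5) p.1 p.2 := by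
  rw [Finset.Nat.sum_antidiagonal_eq_sum_range_succ_mk]
  unfold aa
  rw [Finset.sum_div]
  refine Finset.sum_congr rfl fun k hk => ?_
  rw [Finset.mem_range] at hk
  obtain ⟨m, rfl⟩ : ∃ m, n = k + m := ⟨n - k, by omega⟩
  have h1 : k + m - k = m := by omega
  rw [h1]
  have h2 : ((k + m).choose k : ℝ) * ((k + m + 2 * k).choose (2 * k) : ℝ) *
      ((2 * k).choose k : ℝ) = ((3 * k).choose k : ℝ) * (k.centralBinom : ℝ) *
      ((m + 3 * k).choose (3 * k) : ℝ) := by
    exact_mod_cast choose_identity k m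
  rw [h2]
  unfold tt
  have h3 : ((-324 : ℝ)) ^ m / 540 ^ (k + m) = (1 / 540) ^ k * (-3 / 5) ^ m := by
    rw [pow_add, one_div, inv_pow]
    have : (-3 / 5 : ℝ) = -324 / 540 := by norm_num
    rw [this, div_pow]
    field_simp
  rw [mul_div_assoc, h3]
  ring

lemma tt_nonneg {y s : ℝ} (hy : 0 ≤ y) (hs : 0 ≤ s) (k m : ℕ) : 0 ≤ tt y s k m := by
  unfold tt
  positivity

lemma hasSum_tt (y : ℝ) {s : ℝ} (hs : |s| < 1) (k : ℕ) :
    HasSum (fun m => tt y s k m) (((3 * k).choose k : ℝ) * (k.centralBinom : ℝ) * y ^ k *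
      (1 / (1 - s) ^ (3 * k + 1))) := by
  have h1 := hasSum_choose_mul_geometric_of_norm_lt_one (3 * k) (r := s)
    (by rwa [Real.norm_eq_abs])
  have h2 := h1.mul_left (((3 * k).choose k : ℝ) * (k.centralBinom : ℝ) * y ^ k)
  refine h2.congr_fun ?_
  intro m
  unfold tt
  ring

lemma coef_le (k : ℕ) : ((3 * k).choose k : ℝ) * (k.centralBinom : ℝ) ≤ 32 ^ k := by
  have h1 : (3 * k).choose k ≤ 2 ^ (3 * k) := Nat.choose_le_two_pow _ _
  have h2 : k.centralBinom ≤ 2 ^ (2 * k) := Nat.choose_le_two_pow _ _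
  have h3 : (3 * k).choose k * k.centralBinom ≤ 32 ^ k := by
    calc (3 * k).choose k * k.centralBinom ≤ 2 ^ (3 * k) * 2 ^ (2 * k) := Nat.mul_le_mul h1 h2
      _ = 32 ^ k := by
        rw [← pow_add, show 3 * k + 2 * k = 5 * k by ring, pow_mul]
        norm_num
  exact_mod_cast h3

/-- absolute summability of the double series -/
lemma summable_tt {y s : ℝ} (hy : 0 ≤ y) (hs : 0 ≤ s) (hs1 : s < 1)
    (h : 32 * y < (1 - s) ^ 3) : Summable (fun p : ℕ × ℕ => tt y s p.1 p.2) := by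
  rw [summable_prod_of_nonneg (fun p => tt_nonneg hy hs p.1 p.2)]
  have habs : |s| < 1 := by rwa [abs_of_nonneg hs]
  refine ⟨fun k => (hasSum_tt y habs k).summable, ?_⟩
  have h1 : 0 < 1 - s := by linarith
  have hr : 32 * y / (1 - s) ^ 3 < 1 := (div_lt_one (by positivity)).2 h
  have hr0 : 0 ≤ 32 * y / (1 - s) ^ 3 := by positivity
  have hg := (summable_geometric_of_lt_one hr0 hr).mul_left (1 / (1 - s))
  refine Summable.of_nonneg_of_le ?_ ?_ hg
  · intro k
    exact tsum_nonneg fun m => tt_nonneg hy hs k m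
  · intro k
    rw [(hasSum_tt y habs k).tsum_eq]
    have e : 1 / (1 - s) * (32 * y / (1 - s) ^ 3) ^ k =
        32 ^ k * y ^ k * (1 / (1 - s) ^ (3 * k + 1)) := by
      rw [div_pow, mul_pow, ← pow_mul, pow_succ]
      field_simp
    rw [e]
    have := coef_le k
    gcongr

noncomputable def KK : ℝ := ∑' p : ℕ × ℕ, tt (1 / 535) (324 / 535) p.1 p.2

lemma summable_tt0 : Summable (fun p : ℕ × ℕ => tt (1 / 535) (324 / 535) p.1 p.2) :=
  summable_tt (by norm_num) (by norm_num) (by norm_num) (by norm_num)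

lemma KK_nonneg : 0 ≤ KK := tsum_nonneg fun p => tt_nonneg (by norm_num) (by norm_num) _ _

lemma abs_tt_eq (k m : ℕ) :
    |tt (1 / 540) (-3 / 5) k m| = (107 / 108) ^ (k + m) * tt (1 / 535) (324 / 535) k m := by
  unfold tt
  rw [abs_mul, abs_mul, abs_pow, abs_pow]
  have h1 : |(-3 / 5 : ℝ)| = 107 / 108 * (324 / 535) := by
    rw [abs_of_neg (by norm_num)]
    norm_num
  have h2 : |(1 / 540 : ℝ)| = 107 / 108 * (1 / 535) := by
    rw [abs_of_pos (by norm_num)]
    norm_num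
  rw [h1, h2, mul_pow, mul_pow, pow_add, abs_of_nonneg (by positivity)]
  ring

lemma abs_aa_le (n : ℕ) : |aa n| ≤ KK * (107 / 108) ^ n := by
  rw [aa_eq]
  calc |∑ p ∈ antidiagonal n, tt (1 / 540) (-3 / 5) p.1 p.2|
      ≤ ∑ p ∈ antidiagonal n, |tt (1 / 540) (-3 / 5) p.1 p.2| := Finset.abs_sum_le_sum_abs _ _
    _ = ∑ p ∈ antidiagonal n, (107 / 108) ^ n * tt (1 / 535) (324 / 535) p.1 p.2 := by
      refine Finset.sum_congr rfl fun p hp => ?_
      rw [abs_tt_eq, Finset.HasAntidiagonal.mem_antidiagonal.1 hp]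
    _ = (107 / 108) ^ n * ∑ p ∈ antidiagonal n, tt (1 / 535) (324 / 535) p.1 p.2 := by
      rw [Finset.mul_sum]
    _ ≤ (107 / 108) ^ n * KK := by
      gcongr
      exact summable_tt0.sum_le_tsum _ (fun p _ => tt_nonneg (by norm_num) (by norm_num) _ _)
    _ = KK * (107 / 108) ^ n := mul_comm _ _

/-- `∑ (n+1) |a_n| < ∞` and the like -/
lemma summable_bound : Summable (fun n : ℕ => (357 * (n : ℝ) + 103) * (KK * (107 / 108) ^ n)) := by
  have h1 : Summable (fun n : ℕ => (n : ℝ) ^ 1 * (107 / 108 : ℝ) ^ n) :=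
    summable_pow_mul_geometric_of_norm_lt_one 1 (by norm_num)
  have h2 : Summable (fun n : ℕ => (107 / 108 : ℝ) ^ n) :=
    summable_geometric_of_lt_one (by norm_num) (by norm_num)
  have h3 := (h1.mul_left (357 * KK)).add (h2.mul_left (103 * KK))
  refine h3.congr fun n => ?_
  ring

/-- `Φ(u) = ∑ a_n u^n` -/
noncomputable def Phi (u : ℝ) : ℝ := ∑' n, aa n * u ^ n

/-- `∑ n a_n u^(n-1)` -/
noncomputable def Phi' (u : ℝ) : ℝ := ∑' n, aa n * (n * u ^ (n - 1))

lemma summable_aa {u : ℝ} (hu : |u| ≤ 1) : Summable (fun n => aa n * u ^ n) := by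
  have h1 : Summable (fun n : ℕ => KK * (107 / 108 : ℝ) ^ n) :=
    (summable_geometric_of_lt_one (by norm_num) (by norm_num)).mul_left _
  refine Summable.of_norm_bounded h1 fun n => ?_
  rw [Real.norm_eq_abs, abs_mul, abs_pow]
  calc |aa n| * |u| ^ n ≤ KK * (107 / 108) ^ n * 1 := by
        have := abs_aa_le n
        have h2 : |u| ^ n ≤ 1 := pow_le_one₀ (abs_nonneg _) hu
        gcongr
        exact mul_nonneg KK_nonneg (by positivity)
    _ = _ := by ring

lemma summable_naa : Summable (fun n : ℕ => (n : ℝ) * (KK * (107 / 108 : ℝ) ^ n)) := by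
  have h1 : Summable (fun n : ℕ => (n : ℝ) ^ 1 * (107 / 108 : ℝ) ^ n) :=
    summable_pow_mul_geometric_of_norm_lt_one 1 (by norm_num)
  refine (h1.mul_left KK).congr fun n => ?_
  ring

lemma norm_term'_le {u : ℝ} (hu : |u| ≤ 1) (n : ℕ) :
    ‖aa n * (n * u ^ (n - 1))‖ ≤ (n : ℝ) * (KK * (107 / 108 : ℝ) ^ n) := by
  rw [Real.norm_eq_abs, abs_mul, abs_mul, abs_pow, Nat.abs_cast]
  calc |aa n| * ((n : ℝ) * |u| ^ (n - 1)) ≤ (KK * (107 / 108) ^ n) * (n * 1) := by
        have := abs_aa_le n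
        have h2 : |u| ^ (n - 1) ≤ 1 := pow_le_one₀ (abs_nonneg _) hu
        have h3 : 0 ≤ KK * (107 / 108 : ℝ) ^ n := mul_nonneg KK_nonneg (by positivity)
        gcongr
    _ = _ := by ring

lemma hasDerivAt_Phi {u : ℝ} (hu : u ∈ Ioo (-1 : ℝ) 1) : HasDerivAt Phi (Phi' u) u := by
  unfold Phi Phi'
  refine hasDerivAt_tsum_of_isPreconnected summable_naa isOpen_Ioo isPreconnected_Ioo
    (g := fun n u => aa n * u ^ n) (g' := fun n u => aa n * (n * u ^ (n - 1))) ?_ ?_ (y₀ := 0)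
    (by norm_num) ?_ hu
  · intro n y _
    exact (hasDerivAt_pow n y).const_mul (aa n)
  · intro n y hy
    exact norm_term'_le (abs_le.2 ⟨hy.1.le, hy.2.le⟩) n
  · exact summable_aa (by norm_num)

/-- `357 u Φ'(u) + 103 Φ(u)` as a series -/
lemma hasSum_H {u : ℝ} (hu : |u| ≤ 1) :
    HasSum (fun n : ℕ => (357 * (n : ℝ) + 103) * aa n * u ^ n)
      (357 * u * Phi' u + 103 * Phi u) := by
  have h1 : HasSum (fun n => aa n * (n * u ^ (n - 1))) (Phi' u) :=
    (Summable.of_norm_bounded summable_naa (norm_term'_le hu)).hasSum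
  have h2 : HasSum (fun n => aa n * u ^ n) (Phi u) := (summable_aa hu).hasSum
  have h3 := (h1.mul_left (357 * u)).add (h2.mul_left 103)
  refine h3.congr_fun ?_
  intro n
  rcases Nat.eq_zero_or_pos n with rfl | hn
  · simp
  · have : u ^ n = u * u ^ (n - 1) := by
      rw [← pow_succ']
      congr 1
      omega
    rw [this]
    ring

end Pool.Agent.R90
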